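import Mathlib

/-!
Facts on the unit circle. The lemmas `conj_eval`, `eqSet_finite`, `card_gap` and `gap_of_not_root` are copied
from the starting file `Pool/Agent/H462R2/AP4.lean`.
-/

set_option autoImplicit false
open Set Filter Topology

namespace Pool.Agent.H307R3.ZO

/-- The points of the unit circle where `|P| = |Q|`. -/
def eqSet (P Q : Polynomial ℂ) : Set ℂ := {u | ‖u‖ = 1 ∧ ‖P.eval u‖ = ‖Q.eval u‖}

theorem conj_eval {P : Polynomial ℂ} {D : ℕ} (hP : P.natDegree ≤ D) {u : ℂ} (hu : ‖u‖ = 1) :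
    (∑ k ∈ Finset.range (D + 1), Polynomial.C ((starRingEnd ℂ) (P.coeff k)) *
      Polynomial.X ^ (D - k)).eval u = u ^ D * (starRingEnd ℂ) (P.eval u) := by
  rw [Polynomial.eval_eq_sum_range' (Nat.lt_succ_of_le hP), map_sum, Finset.mul_sum,
    Polynomial.eval_finsetSum]
  refine Finset.sum_congr rfl fun k hk => ?_
  have hk' : k ≤ D := Nat.lt_succ_iff.1 (Finset.mem_range.1 hk)
  have huu : u * (starRingEnd ℂ) u = 1 := by
    rw [Complex.mul_conj, Complex.normSq_eq_norm_sq, hu]; simp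
  simp only [Polynomial.eval_mul, Polynomial.eval_C, Polynomial.eval_pow, Polynomial.eval_X,
    map_mul, map_pow]
  have h1 : u ^ D = u ^ (D - k) * u ^ k := by rw [← pow_add]; congr 1; omega
  have h2 : u ^ k * (starRingEnd ℂ) u ^ k = 1 := by rw [← mul_pow, huu, one_pow]
  rw [h1]
  calc (starRingEnd ℂ) (P.coeff k) * u ^ (D - k)
      = (starRingEnd ℂ) (P.coeff k) * u ^ (D - k) * (u ^ k * (starRingEnd ℂ) u ^ k) := by
        rw [h2, mul_one]
    _ = _ := by ring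

theorem eqSet_finite {P Q : Polynomial ℂ} (h : ∃ u : ℂ, ‖u‖ = 1 ∧ ‖P.eval u‖ ≠ ‖Q.eval u‖) :
    (eqSet P Q).Finite := by
  set D := max P.natDegree Q.natDegree with hD
  set G : Polynomial ℂ :=
    P * (∑ k ∈ Finset.range (D + 1), Polynomial.C ((starRingEnd ℂ) (P.coeff k)) *
      Polynomial.X ^ (D - k)) -
    Q * (∑ k ∈ Finset.range (D + 1), Polynomial.C ((starRingEnd ℂ) (Q.coeff k)) *
      Polynomial.X ^ (D - k)) with hG
  have hev : ∀ u : ℂ, ‖u‖ = 1 → G.eval u = u ^ D * ((‖P.eval u‖ ^ 2 - ‖Q.eval u‖ ^ 2 : ℝ) : ℂ) := by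
    intro u hu
    have h1 : ∀ z : ℂ, z * (starRingEnd ℂ) z = ((‖z‖ ^ 2 : ℝ) : ℂ) := by
      intro z; rw [Complex.mul_conj, Complex.normSq_eq_norm_sq]
    rw [hG, Polynomial.eval_sub, Polynomial.eval_mul, Polynomial.eval_mul,
      conj_eval (le_max_left _ _) hu, conj_eval (le_max_right _ _) hu]
    push_cast
    have h2 := h1 (P.eval u)
    have h3 := h1 (Q.eval u)
    push_cast at h2 h3
    rw [← h2, ← h3]
    ring
  have hG0 : G ≠ 0 := by
    intro h0
    obtain ⟨u, hu, hne⟩ := h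
    have h1 := hev u hu
    rw [h0, Polynomial.eval_zero] at h1
    have hu0 : u ^ D ≠ 0 := by
      apply pow_ne_zero
      intro h; rw [h, norm_zero] at hu; norm_num at hu
    have h2 : ((‖P.eval u‖ ^ 2 - ‖Q.eval u‖ ^ 2 : ℝ) : ℂ) = 0 :=
      (mul_eq_zero.1 h1.symm).resolve_left hu0
    have h3 : ‖P.eval u‖ ^ 2 = ‖Q.eval u‖ ^ 2 := by
      have : ‖P.eval u‖ ^ 2 - ‖Q.eval u‖ ^ 2 = 0 := by exact_mod_cast h2
      linarith
    exact hne ((pow_left_inj₀ (norm_nonneg _) (norm_nonneg _) two_ne_zero).1 h3)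
  refine (Multiset.toFinset G.roots).finite_toSet.subset ?_
  rintro u ⟨hu, heq⟩
  rw [Finset.mem_coe, Multiset.mem_toFinset, Polynomial.mem_roots hG0, Polynomial.IsRoot.def,
    hev u hu, heq, sub_self, Complex.ofReal_zero, mul_zero]

/-- A set with gaps larger than `L` is sparse. -/
theorem card_gap {S : Set ℕ} {L : ℕ} (N : ℕ)
    (hS : ∀ n ∈ S, ∀ m ∈ S, n < m → n + L < m) [DecidablePred (· ∈ S)] :
    ((Finset.range N).filter (· ∈ S)).card ≤ N / (L + 1) + 1 := by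
  rw [← Finset.card_range (N / (L + 1) + 1)]
  apply Finset.card_le_card_of_injOn (fun n => n / (L + 1))
  · intro n hn
    simp only [Finset.coe_filter, Finset.mem_range, Set.mem_ofPred_eq] at hn
    rw [Finset.mem_coe, Finset.mem_range, Nat.lt_succ_iff]
    exact Nat.div_le_div_right hn.1.le
  · have hlt : ∀ n ∈ S, ∀ m ∈ S, n < m → n / (L + 1) < m / (L + 1) := by
      intro n hn m hm hnm
      have h5 : n + (L + 1) ≤ m := by have := hS n hn m hm hnm; omega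
      calc n / (L + 1) < n / (L + 1) + 1 := Nat.lt_succ_self _
        _ = (n + (L + 1)) / (L + 1) := (Nat.add_div_right n (Nat.succ_pos L)).symm
        _ ≤ m / (L + 1) := Nat.div_le_div_right h5
    intro n hn m hm hnm
    simp only [Finset.coe_filter, Finset.mem_range, Set.mem_ofPred_eq] at hn hm
    simp only at hnm
    rcases lt_trichotomy n m with h | h | h
    · exact absurd hnm (hlt n hn.2 m hm.2 h).ne
    · exact h
    · exact absurd hnm (hlt m hm.2 n hn.2 h).ne'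

/-- The returns of a point of the unit circle which is not a root of unity are sparse. -/
theorem gap_of_not_root {v : ℂ} (hv : ‖v‖ = 1) (hroot : ∀ k, 0 < k → v ^ k ≠ 1) (L : ℕ) :
    ∃ δ : ℝ, 0 < δ ∧ ∀ w : ℂ, ∀ n ∈ {n : ℕ | ‖v ^ n - w‖ < δ}, ∀ m ∈ {n : ℕ | ‖v ^ n - w‖ < δ},
      n < m → n + L < m := by
  have hex : ∃ δ : ℝ, 0 < δ ∧ ∀ k ∈ Finset.Icc 1 L, δ ≤ ‖v ^ k - 1‖ := by
    rcases (Finset.Icc 1 L).eq_empty_or_nonempty with h | h
    · rw [h]; exact ⟨1, one_pos, by simp⟩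
    · obtain ⟨i, hi, hmin⟩ := (Finset.Icc 1 L).exists_min_image (fun k => ‖v ^ k - 1‖) h
      rw [Finset.mem_Icc] at hi
      exact ⟨_, norm_pos_iff.2 (sub_ne_zero.2 (hroot i (by omega))), hmin⟩
  obtain ⟨δ, hδ, h1⟩ := hex
  refine ⟨δ / 2, by positivity, ?_⟩
  intro w n hn m hm hnm
  by_contra hcon
  push Not at hcon
  have h2 := h1 (m - n) (Finset.mem_Icc.2 ⟨by omega, by omega⟩)
  have h3 : ‖v ^ (m - n) - 1‖ = ‖(v ^ m - w) - (v ^ n - w)‖ := by
    have h4 : (v ^ m - w) - (v ^ n - w) = v ^ n * (v ^ (m - n) - 1) := by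
      have : m = n + (m - n) := by omega
      conv_lhs => rw [this, pow_add]
      ring
    rw [h4, norm_mul, norm_pow, hv, one_pow, one_mul]
  have h5 := norm_sub_le (v ^ m - w) (v ^ n - w)
  rw [Set.mem_ofPred_eq] at hn hm
  linarith


/-- the roots of unity -/
def U : Set ℂ := {u | ∃ k : ℕ, 0 < k ∧ u ^ k = 1}

theorem norm_U {u : ℂ} (h : u ∈ U) : ‖u‖ = 1 := by
  obtain ⟨k, hk, h1⟩ := h
  exact Complex.norm_eq_one_of_pow_eq_one h1 (by omega)

/-- a common exponent -/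
theorem exists_exp {W : Set ℂ} (hW : W.Finite) : W ⊆ U → ∃ m : ℕ, 0 < m ∧ ∀ w ∈ W, w ^ m = 1 := by
  induction W, hW using Set.Finite.induction_on with
  | empty => exact fun _ => ⟨1, one_pos, by simp⟩
  | @insert a M _ _ ih =>
    intro hsub
    obtain ⟨m, hm, h1⟩ := ih fun x hx => hsub (Or.inr hx)
    obtain ⟨k, hk, h2⟩ := hsub (Or.inl rfl)
    refine ⟨k * m, by positivity, ?_⟩
    rintro w (rfl | hw)
    · rw [pow_mul, h2, one_pow]
    · rw [mul_comm, pow_mul, h1 w hw, one_pow]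

theorem pow_congr_mod {w : ℂ} {m n r : ℕ} (hw : w ^ m = 1) (h : n % m = r % m) :
    w ^ n = w ^ r := by
  have e : ∀ k : ℕ, w ^ k = w ^ (k % m) := by
    intro k
    conv_lhs => rw [← Nat.mod_add_div k m]
    rw [pow_add, pow_mul, hw, one_pow, mul_one]
  rw [e n, e r, h]

/-- compactness away from the exceptional points -/
theorem off_circle (P : Polynomial ℂ) {δ : ℝ} (hδ : 0 < δ) :
    ∃ η : ℝ, 0 < η ∧ ∀ u : ℂ, ‖u‖ = 1 → (∀ w ∈ eqSet P 1, δ ≤ ‖u - w‖) →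
      ‖P.eval u‖ ≤ 1 - η ∨ 1 + η ≤ ‖P.eval u‖ := by
  have hK : IsCompact {u : ℂ | ‖u‖ = 1 ∧ ∀ w ∈ eqSet P 1, δ ≤ ‖u - w‖} := by
    apply (isCompact_sphere (0 : ℂ) 1).of_isClosed_subset
    · have h1 : {u : ℂ | ‖u‖ = 1 ∧ ∀ w ∈ eqSet P 1, δ ≤ ‖u - w‖} =
          {u : ℂ | ‖u‖ = 1} ∩ ⋂ w ∈ eqSet P 1, {u : ℂ | δ ≤ ‖u - w‖} := by
        ext u; simp
      rw [h1]
      apply (isClosed_eq continuous_norm continuous_const).inter
      apply isClosed_biInter
      intro w _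
      exact isClosed_le continuous_const (by fun_prop)
    · intro u hu
      simpa using hu.1
  rcases Set.eq_empty_or_nonempty {u : ℂ | ‖u‖ = 1 ∧ ∀ w ∈ eqSet P 1, δ ≤ ‖u - w‖} with he | hne
  · refine ⟨1, one_pos, fun u h1 h2 => ?_⟩
    have : u ∈ {u : ℂ | ‖u‖ = 1 ∧ ∀ w ∈ eqSet P 1, δ ≤ ‖u - w‖} := ⟨h1, h2⟩
    rw [he] at this
    exact absurd this (Set.notMem_empty u)
  · obtain ⟨u₀, hu₀, hmin⟩ := hK.exists_isMinOn hne
      (f := fun u : ℂ => |‖P.eval u‖ - 1|) (by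
        apply Continuous.continuousOn
        exact ((P.continuous.norm).sub continuous_const).abs)
    refine ⟨|‖P.eval u₀‖ - 1|, ?_, fun u h1 h2 => ?_⟩
    · rw [abs_pos, sub_ne_zero]
      intro heq
      have := hu₀.2 u₀ ⟨hu₀.1, by rw [heq]; simp⟩
      rw [sub_self, norm_zero] at this
      linarith
    · have h3 : |‖P.eval u₀‖ - 1| ≤ |‖P.eval u‖ - 1| :=
        hmin (show u ∈ {u : ℂ | ‖u‖ = 1 ∧ ∀ w ∈ eqSet P 1, δ ≤ ‖u - w‖} from ⟨h1, h2⟩)
      rcases le_abs.1 h3 with h4 | h4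
      · right; linarith
      · left; linarith

end Pool.Agent.H307R3.ZO
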