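import Mathlib

/-!
Dynamics of `z ↦ P(z ^ n)`: escaping and attracted points.
-/

set_option autoImplicit false
open Filter Topology Polynomial Metric

namespace Pool.Agent.H307R3.ZO

/-- the orbit escapes -/
def Esc (f : ℂ → ℂ) (z : ℂ) : Prop := Tendsto (fun k : ℕ => ‖f^[k] z‖) atTop atTop

/-- the orbit is attracted by a sink -/
def Att (f : ℂ → ℂ) (z : ℂ) : Prop :=
  ∃ n : ℕ, 0 < n ∧ ∃ x : ℂ, f^[n] x = x ∧ ‖deriv (f^[n]) x‖ < 1 ∧
    Tendsto (fun k : ℕ => f^[n * k] z) atTop (𝓝 x)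

def G (f : ℂ → ℂ) (z : ℂ) : Prop := Esc f z ∨ Att f z

theorem diff_iter {f : ℂ → ℂ} (hf : Differentiable ℂ f) (n : ℕ) : Differentiable ℂ (f^[n]) := by
  induction n with
  | zero => simp
  | succ n ih => rw [Function.iterate_succ]; exact ih.comp hf

theorem G_of_image {f : ℂ → ℂ} (hf : Differentiable ℂ f) {z : ℂ} (h : G f (f z)) : G f z := by
  rcases h with h | ⟨n, hn, x, hx, hd, ht⟩
  · left
    unfold Esc at h ⊢
    rw [← tendsto_add_atTop_iff_nat 1]
    exact h
  · right
    obtain ⟨p, rfl⟩ : ∃ p, n = p + 1 := ⟨n - 1, by omega⟩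
    refine ⟨p + 1, hn, f^[p] x, ?_, ?_, ?_⟩
    · rw [← Function.iterate_add_apply, add_comm, Function.iterate_add_apply, hx]
    · have e1 : f (f^[p] x) = x := by
        rw [← Function.iterate_succ_apply' f p x]; exact hx
      have h1 : deriv (f^[p + 1]) (f^[p] x) = deriv (f^[p + 1]) x := by
        have a1 : deriv (f^[p + 1]) (f^[p] x) = deriv (f^[p]) (f (f^[p] x)) * deriv f (f^[p] x) := by
          rw [Function.iterate_succ]
          exact deriv_comp _ ((diff_iter hf p) _) (hf _)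
        have a2 : deriv (f^[p + 1]) x = deriv f (f^[p] x) * deriv (f^[p]) x := by
          rw [Function.iterate_succ']
          exact deriv_comp _ (hf _) ((diff_iter hf p) _)
        rw [a1, a2, e1, mul_comm]
      rw [h1]; exact hd
    · have h2 : Tendsto (fun k : ℕ => f^[p] (f^[(p + 1) * k] (f z))) atTop (𝓝 (f^[p] x)) :=
        ((diff_iter hf p).continuous.tendsto x).comp ht
      rw [← tendsto_add_atTop_iff_nat 1]
      refine h2.congr fun k => ?_
      rw [← Function.iterate_succ_apply f ((p + 1) * k) z, ← Function.iterate_add_apply]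
      have e : p + ((p + 1) * k).succ = (p + 1) * (k + 1) := by
        rw [Nat.succ_eq_add_one]; ring
      rw [e]

theorem G_of_iter {f : ℂ → ℂ} (hf : Differentiable ℂ f) {z : ℂ} (m : ℕ) (h : G f (f^[m] z)) :
    G f z := by
  induction m with
  | zero => exact h
  | succ m ih =>
    apply ih
    apply G_of_image hf
    rwa [← Function.iterate_succ_apply' f m z]

/-- contraction of a disc into itself -/
theorem att_of_contract {f : ℂ → ℂ} (hf : Differentiable ℂ f) {n : ℕ} (hn : 0 < n) {ρ : ℝ}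
    (h0 : ∀ z, ‖z‖ ≤ ρ → ‖f^[n] z‖ < ρ)
    (h1 : ∀ z w, ‖z‖ ≤ ρ → ‖w‖ ≤ ρ → ‖f^[n] z - f^[n] w‖ ≤ 1 / 2 * ‖z - w‖) {z : ℂ}
    (hz : ‖z‖ ≤ ρ) : Att f z := by
  have hs : IsComplete (closedBall (0 : ℂ) ρ) := isClosed_closedBall.isComplete
  have hsf : Set.MapsTo (f^[n]) (closedBall (0 : ℂ) ρ) (closedBall (0 : ℂ) ρ) := by
    intro w hw
    rw [mem_closedBall_zero_iff] at hw ⊢
    exact (h0 w hw).le
  have hc : ContractingWith (1 / 2 : NNReal) (Set.MapsTo.restrict (f^[n]) _ _ hsf) := by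
    refine ⟨?_, ?_⟩
    · rw [← NNReal.coe_lt_coe]; norm_num
    · refine LipschitzWith.of_dist_le_mul fun a b => ?_
      have ha := a.2
      have hb := b.2
      rw [mem_closedBall_zero_iff] at ha hb
      have := h1 a b ha hb
      rw [Subtype.dist_eq, Subtype.dist_eq, dist_eq_norm, dist_eq_norm]
      simpa using this
  obtain ⟨y, hy, hfix, ht, -⟩ := hc.exists_fixedPoint' hs hsf (x := z)
    (by rwa [mem_closedBall_zero_iff]) (edist_ne_top _ _)
  rw [mem_closedBall_zero_iff] at hy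
  refine ⟨n, hn, y, hfix, ?_, ?_⟩
  · have hy' : ‖y‖ < ρ := by
      have := h0 y hy
      rwa [show f^[n] y = y from hfix] at this
    have h2 : ‖deriv (f^[n]) y‖ ≤ 1 / 2 := by
      refine HasDerivAt.le_of_lip' ((diff_iter hf n) y).hasDerivAt (by norm_num) ?_
      have : ∀ᶠ w in 𝓝 y, ‖w‖ < ρ :=
        (continuous_norm.tendsto y).eventually_lt_const hy'
      filter_upwards [this] with w hw
      exact h1 w y hw.le hy
    linarith
  · refine ht.congr fun k => ?_
    rw [← Function.iterate_mul]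

/-- contraction near a periodic point -/
theorem att_of_near {f : ℂ → ℂ} (hf : Differentiable ℂ f) {n : ℕ} (hn : 0 < n) {x : ℂ}
    (hx : f^[n] x = x) {s : ℝ} (hs : 0 < s)
    (h1 : ∀ w, ‖w - x‖ ≤ s → ‖f^[n] w - x‖ ≤ 1 / 2 * ‖w - x‖) {z : ℂ}
    (hz : ‖z - x‖ ≤ s) : Att f z := by
  refine ⟨n, hn, x, hx, ?_, ?_⟩
  · have h2 : ‖deriv (f^[n]) x‖ ≤ 1 / 2 := by
      refine HasDerivAt.le_of_lip' ((diff_iter hf n) x).hasDerivAt (by norm_num) ?_
      have : ∀ᶠ w in 𝓝 x, w ∈ closedBall x s := closedBall_mem_nhds x hs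
      filter_upwards [this] with w hw
      rw [mem_closedBall, dist_eq_norm] at hw
      rw [hx]
      exact h1 w hw
    linarith
  · have key : ∀ k : ℕ, ‖f^[n * k] z - x‖ ≤ (1 / 2) ^ k * s := by
      intro k
      induction k with
      | zero => simpa using hz
      | succ k ih =>
        have h3 : ‖f^[n * k] z - x‖ ≤ s := ih.trans (by
          have : (1 / 2 : ℝ) ^ k ≤ 1 := pow_le_one₀ (by norm_num) (by norm_num)
          nlinarith)
        have h4 := h1 _ h3
        rw [← Function.iterate_add_apply] at h4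
        have e : n + n * k = n * (k + 1) := by ring
        rw [e] at h4
        calc ‖f^[n * (k + 1)] z - x‖ ≤ 1 / 2 * ‖f^[n * k] z - x‖ := h4
          _ ≤ 1 / 2 * ((1 / 2) ^ k * s) := by linarith
          _ = (1 / 2) ^ (k + 1) * s := by ring
    rw [tendsto_iff_norm_sub_tendsto_zero]
    refine squeeze_zero (fun _ => norm_nonneg _) key ?_
    have := (tendsto_pow_atTop_nhds_zero_of_lt_one (r := (1 / 2 : ℝ)) (by norm_num)
      (by norm_num)).mul_const s
    simpa using this

/-- a superattracting periodic point -/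
theorem att_super {f : ℂ → ℂ} (hf : Differentiable ℂ f) {n : ℕ} (hn : 0 < n) {x : ℂ}
    (hx : f^[n] x = x) (hd : deriv f x = 0) : Att f x := by
  refine ⟨n, hn, x, hx, ?_, ?_⟩
  · obtain ⟨p, rfl⟩ : ∃ p, n = p + 1 := ⟨n - 1, by omega⟩
    have a1 : deriv (f^[p + 1]) x = deriv (f^[p]) (f x) * deriv f x := by
      rw [Function.iterate_succ]
      exact deriv_comp _ ((diff_iter hf p) _) (hf _)
    rw [a1, hd, mul_zero, norm_zero]; exact one_pos
  · have : ∀ k : ℕ, f^[n * k] x = x := by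
      intro k
      rw [Function.iterate_mul]
      exact Function.iterate_fixed hx k
    simp [this]

theorem deriv_iter_ge {f : ℂ → ℂ} (hf : Differentiable ℂ f) {x : ℂ}
    (h : ∀ i : ℕ, 1 ≤ ‖deriv f (f^[i] x)‖) (n : ℕ) : 1 ≤ ‖deriv (f^[n]) x‖ := by
  induction n with
  | zero => simp
  | succ n ih =>
    have a2 : deriv (f^[n + 1]) x = deriv f (f^[n] x) * deriv (f^[n]) x := by
      rw [Function.iterate_succ']
      exact deriv_comp _ (hf _) ((diff_iter hf n) _)
    rw [a2, norm_mul]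
    have := h n
    nlinarith

/-- a point whose orbit is finite and eventually repelling is not good -/
theorem not_G {f : ℂ → ℂ} (hf : Differentiable ℂ f) {z : ℂ} {S : Set ℂ} (hS : S.Finite)
    (horb : ∀ i, f^[i] z ∈ S) (I : ℕ) (h : ∀ i, I ≤ i → 1 ≤ ‖deriv f (f^[i] z)‖) : ¬ G f z := by
  rintro (h1 | ⟨n, hn, x, hx, hd, ht⟩)
  · obtain ⟨C, hC⟩ := (hS.isBounded).exists_norm_le
    obtain ⟨k, hk⟩ := (h1.eventually_gt_atTop C).exists
    exact absurd (hC _ (horb k)) (not_le.2 hk)
  · -- the sequence is eventually equal to `x`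
    have hev : ∀ᶠ k : ℕ in atTop, f^[n * k] z = x := by
      have hcl : IsClosed (S \ {x}) := (hS.subset Set.sdiff_subset).isClosed
      have hopen : (S \ {x})ᶜ ∈ 𝓝 x := hcl.isOpen_compl.mem_nhds (by simp)
      filter_upwards [ht hopen] with k hk
      by_contra hne
      exact hk ⟨horb _, hne⟩
    obtain ⟨k, hk, hkI⟩ := (hev.and (eventually_ge_atTop I)).exists
    have hge : I ≤ n * k := hkI.trans (Nat.le_mul_of_pos_left k hn)
    have h2 : ∀ i : ℕ, 1 ≤ ‖deriv f (f^[i] x)‖ := by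
      intro i
      rw [← hk, ← Function.iterate_add_apply]
      exact h _ (by omega)
    have := deriv_iter_ge hf h2 n
    linarith

end Pool.Agent.H307R3.ZO
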