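import Mathlib
import Pool.Agent.H307R3.ZO.Dyn

/-!
Estimates for `z ↦ P(z ^ n)`.
-/

set_option autoImplicit false
open Filter Topology Polynomial Metric

namespace Pool.Agent.H307R3.ZO

/-- the map `z ↦ P(z ^ n)` -/
def F (P : ℂ[X]) (n : ℕ) : ℂ → ℂ := fun z => P.eval (z ^ n)

theorem F_diff (P : ℂ[X]) (n : ℕ) : Differentiable ℂ (F P n) := by
  unfold F
  exact P.differentiable.comp (differentiable_id.pow n)

theorem F_deriv (P : ℂ[X]) (n : ℕ) (z : ℂ) :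
    deriv (F P n) z = (derivative P).eval (z ^ n) * (n * z ^ (n - 1)) := by
  have h1 : HasDerivAt (fun z : ℂ => z ^ n) (n * z ^ (n - 1)) z := hasDerivAt_pow n z
  have h2 : HasDerivAt (fun w => P.eval w) ((derivative P).eval (z ^ n)) (z ^ n) :=
    P.hasDerivAt _
  exact (h2.comp z h1).deriv

theorem pow_lip {r : ℝ} (n : ℕ) {z w : ℂ} (hz : ‖z‖ ≤ r) (hw : ‖w‖ ≤ r) :
    ‖z ^ n - w ^ n‖ ≤ n * r ^ (n - 1) * ‖z - w‖ := by
  refine Convex.norm_image_sub_le_of_norm_deriv_le (𝕜 := ℂ) (f := fun z : ℂ => z ^ n)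
    (s := closedBall (0 : ℂ) r) (fun x _ => (differentiable_id.pow n) x) ?_
    (convex_closedBall _ _) (by simpa using hw) (by simpa using hz)
  intro x hx
  rw [mem_closedBall_zero_iff] at hx
  have : deriv (fun z : ℂ => z ^ n) x = n * x ^ (n - 1) := (hasDerivAt_pow n x).deriv
  rw [this, norm_mul, norm_pow, Complex.norm_natCast]
  gcongr

theorem poly_lip (P : ℂ[X]) : ∃ L : ℝ, 1 ≤ L ∧ ∀ x y : ℂ, ‖x‖ ≤ 3 → ‖y‖ ≤ 3 →
    ‖P.eval x - P.eval y‖ ≤ L * ‖x - y‖ := by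
  obtain ⟨C, hC⟩ := (isCompact_closedBall (0 : ℂ) 3).exists_bound_of_continuousOn
    (f := fun w => (derivative P).eval w) (derivative P).continuous.continuousOn
  refine ⟨max C 1, le_max_right _ _, fun x y hx hy => ?_⟩
  refine Convex.norm_image_sub_le_of_norm_deriv_le (𝕜 := ℂ) (f := fun z : ℂ => P.eval z)
    (s := closedBall (0 : ℂ) 3) (fun x _ => P.differentiable x) ?_
    (convex_closedBall _ _) (by simpa using hy) (by simpa using hx)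
  intro u hu
  rw [P.deriv]
  exact (hC u hu).trans (le_max_left _ _)

theorem poly_quad (P : ℂ[X]) : ∃ M : ℝ, 1 ≤ M ∧ ∀ x y : ℂ, ‖x‖ ≤ 3 → ‖y‖ ≤ 3 →
    (derivative P).eval y = 0 → ‖P.eval x - P.eval y‖ ≤ M * ‖x - y‖ ^ 2 := by
  obtain ⟨L, hL1, hL⟩ := poly_lip (derivative P)
  refine ⟨L, hL1, fun x y hx hy h0 => ?_⟩
  have h : ‖P.eval x - P.eval y‖ ≤ (L * ‖x - y‖) * ‖x - y‖ := by
    refine Convex.norm_image_sub_le_of_norm_deriv_le (𝕜 := ℂ) (f := fun z : ℂ => P.eval z)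
      (s := closedBall (0 : ℂ) 3 ∩ closedBall y ‖x - y‖) (fun x _ => P.differentiable x) ?_
      ((convex_closedBall _ _).inter (convex_closedBall _ _))
      ⟨by simpa using hy, by simp⟩ ⟨by simpa using hx, by simp [dist_eq_norm]⟩
    rintro u ⟨hu1, hu2⟩
    rw [P.deriv]
    rw [mem_closedBall_zero_iff] at hu1
    rw [mem_closedBall, dist_eq_norm] at hu2
    have := hL u y hu1 hy
    rw [h0, sub_zero] at this
    exact this.trans (by gcongr)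
  calc _ ≤ (L * ‖x - y‖) * ‖x - y‖ := h
    _ = _ := by ring

theorem pow_le_three (n : ℕ) (k : ℕ) (hk : k ≤ n) : (1 + 1 / (n : ℝ)) ^ k ≤ 3 := by
  rcases Nat.eq_zero_or_pos n with h0 | hn
  · subst h0
    have : k = 0 := by omega
    subst this; norm_num
  · have hn' : (0:ℝ) < n := by exact_mod_cast hn
    have h1 : (1 + 1 / (n : ℝ)) ^ k ≤ (1 + 1 / (n : ℝ)) ^ n :=
      pow_le_pow_right₀ (by have : 0 ≤ 1 / (n:ℝ) := by positivity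
                            linarith) hk
    have h2 : (1 + 1 / (n : ℝ)) ^ n ≤ Real.exp (1 / n) ^ n := by
      gcongr
      rw [add_comm]; exact Real.add_one_le_exp _
    have h3 : Real.exp (1 / (n:ℝ)) ^ n = Real.exp 1 := by
      rw [← Real.exp_nat_mul]; congr 1; field_simp
    have := Real.exp_one_lt_d9
    rw [h3] at h2
    linarith

/-- near the closed unit disc -/
theorem F_lip {P : ℂ[X]} {L : ℝ} (hL1 : 1 ≤ L) (hL : ∀ x y : ℂ, ‖x‖ ≤ 3 → ‖y‖ ≤ 3 →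
    ‖P.eval x - P.eval y‖ ≤ L * ‖x - y‖) {n : ℕ} {z w : ℂ}
    (hz : ‖z‖ ≤ 1 + 1 / n) (hw : ‖w‖ ≤ 1 + 1 / n) :
    ‖F P n z - F P n w‖ ≤ (3 * L * n) * ‖z - w‖ := by
  have hp : ∀ u : ℂ, ‖u‖ ≤ 1 + 1 / n → ‖u ^ n‖ ≤ 3 := by
    intro u hu
    rw [norm_pow]
    exact (pow_le_pow_left₀ (norm_nonneg _) hu n).trans (pow_le_three n n le_rfl)
  have h1 := hL _ _ (hp z hz) (hp w hw)
  have h2 := pow_lip n hz hw
  have h3 := pow_le_three n (n - 1) (by omega)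
  calc ‖F P n z - F P n w‖ ≤ L * ‖z ^ n - w ^ n‖ := h1
    _ ≤ L * (n * (1 + 1 / (n:ℝ)) ^ (n - 1) * ‖z - w‖) := by gcongr
    _ ≤ L * (n * 3 * ‖z - w‖) := by gcongr
    _ = _ := by ring

/-- inside a smaller disc -/
theorem F_lip_in {P : ℂ[X]} {L : ℝ} (hL1 : 1 ≤ L) (hL : ∀ x y : ℂ, ‖x‖ ≤ 3 → ‖y‖ ≤ 3 →
    ‖P.eval x - P.eval y‖ ≤ L * ‖x - y‖) {n : ℕ} {ρ : ℝ} (hρ0 : 0 ≤ ρ) (hρ1 : ρ ≤ 1) {z w : ℂ}
    (hz : ‖z‖ ≤ ρ) (hw : ‖w‖ ≤ ρ) :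
    ‖F P n z - F P n w‖ ≤ (L * n * ρ ^ (n - 1)) * ‖z - w‖ := by
  have hp : ∀ u : ℂ, ‖u‖ ≤ ρ → ‖u ^ n‖ ≤ 3 := by
    intro u hu
    rw [norm_pow]
    have := pow_le_one₀ (n := n) (norm_nonneg u) (hu.trans hρ1)
    linarith
  have h1 := hL _ _ (hp z hz) (hp w hw)
  have h2 := pow_lip n hz hw
  calc ‖F P n z - F P n w‖ ≤ L * ‖z ^ n - w ^ n‖ := h1
    _ ≤ L * (n * ρ ^ (n - 1) * ‖z - w‖) := by gcongr
    _ = _ := by ring

/-- quadratic estimate near a critical point of the circle -/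
theorem F_quad {P : ℂ[X]} {M : ℝ} (hM1 : 1 ≤ M) (hM : ∀ x y : ℂ, ‖x‖ ≤ 3 → ‖y‖ ≤ 3 →
    (derivative P).eval y = 0 → ‖P.eval x - P.eval y‖ ≤ M * ‖x - y‖ ^ 2) {n : ℕ} {z w : ℂ}
    (hz : ‖z‖ ≤ 1 + 1 / n) (hw : ‖w‖ ≤ 1 + 1 / n) (h0 : (derivative P).eval (w ^ n) = 0) :
    ‖F P n z - F P n w‖ ≤ (9 * M * n ^ 2) * ‖z - w‖ ^ 2 := by
  have hp : ∀ u : ℂ, ‖u‖ ≤ 1 + 1 / n → ‖u ^ n‖ ≤ 3 := by
    intro u hu
    rw [norm_pow]
    exact (pow_le_pow_left₀ (norm_nonneg _) hu n).trans (pow_le_three n n le_rfl)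
  have h1 := hM _ _ (hp z hz) (hp w hw) h0
  have h2 := pow_lip n hz hw
  have h3 := pow_le_three n (n - 1) (by omega)
  have h4 : ‖z ^ n - w ^ n‖ ≤ n * 3 * ‖z - w‖ := h2.trans (by gcongr)
  calc ‖F P n z - F P n w‖ ≤ M * ‖z ^ n - w ^ n‖ ^ 2 := h1
    _ ≤ M * (n * 3 * ‖z - w‖) ^ 2 := by gcongr
    _ = _ := by ring

/-- a linear lower bound -/
theorem poly_low {P : ℂ[X]} (hP : 0 < P.natDegree) : ∃ c R : ℝ, 0 < c ∧ 1 ≤ R ∧
    ∀ w : ℂ, R ≤ ‖w‖ → c * ‖w‖ ≤ ‖P.eval w‖ := by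
  have hQ0 : P.divX ≠ 0 := by
    intro h
    have h1 := Polynomial.divX_mul_X_add P
    rw [h, zero_mul, zero_add] at h1
    rw [← h1, natDegree_C] at hP
    exact lt_irrefl _ hP
  obtain ⟨c, R, hc, hR⟩ : ∃ c R : ℝ, 0 < c ∧ ∀ w : ℂ, R ≤ ‖w‖ → c ≤ ‖P.divX.eval w‖ := by
    rcases Nat.eq_zero_or_pos P.divX.natDegree with h | h
    · rw [natDegree_eq_zero] at h
      obtain ⟨a, ha⟩ := h
      refine ⟨‖a‖, 0, ?_, ?_⟩
      · rw [norm_pos_iff]; rintro rfl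
        rw [C_0] at ha
        exact hQ0 ha.symm
      · intro w _
        rw [← ha, eval_C]
    · have h1 := P.divX.tendsto_norm_atTop (natDegree_pos_iff_degree_pos.1 h)
        (l := comap (fun w : ℂ => ‖w‖) atTop) (z := fun w => w) tendsto_comap
      have h2 := h1.eventually_ge_atTop 1
      rw [eventually_comap] at h2
      obtain ⟨R, hR⟩ := eventually_atTop.1 h2
      exact ⟨1, R, one_pos, fun w hw => hR _ hw w rfl⟩
  refine ⟨c / 2, max (max R 1) (2 * ‖P.coeff 0‖ / c), by positivity,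
    (le_max_right _ _).trans (le_max_left _ _), fun w hw => ?_⟩
  have hw1 : R ≤ ‖w‖ := ((le_max_left _ _).trans (le_max_left _ _)).trans hw
  have hw2 : 2 * ‖P.coeff 0‖ / c ≤ ‖w‖ := (le_max_right _ _).trans hw
  have h1 : P.eval w = P.divX.eval w * w + P.coeff 0 := by
    conv_lhs => rw [← Polynomial.divX_mul_X_add P]
    simp
  have h2 := hR w hw1
  have h3 : ‖P.divX.eval w * w‖ ≤ ‖P.eval w‖ + ‖P.coeff 0‖ := by
    have : P.divX.eval w * w = P.eval w - P.coeff 0 := by rw [h1]; ring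
    rw [this]; exact norm_sub_le _ _
  rw [norm_mul] at h3
  rw [div_le_iff₀ hc] at hw2
  have h4 : c * ‖w‖ ≤ ‖P.divX.eval w‖ * ‖w‖ := by gcongr
  linarith

/-- the escape region -/
theorem esc_region {P : ℂ[X]} (hP : 0 < P.natDegree) {δ : ℝ} (hδ : 0 < δ) :
    ∃ n₀ : ℕ, ∀ n, n₀ ≤ n → ∀ z : ℂ, 1 + δ ≤ ‖z‖ → Esc (F P n) z := by
  obtain ⟨c, R, hc, hR1, hR⟩ := poly_low hP
  have ht : Tendsto (fun n : ℕ => (1 + δ) ^ n) atTop atTop :=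
    tendsto_pow_atTop_atTop_of_one_lt (by linarith)
  obtain ⟨n₀, hn₀⟩ := eventually_atTop.1
    ((ht.eventually_ge_atTop R).and (ht.eventually_ge_atTop (2 / c)))
  refine ⟨n₀ + 1, fun n hn z hz => ?_⟩
  obtain ⟨m, rfl⟩ : ∃ m, n = m + 1 := ⟨n - 1, by omega⟩
  obtain ⟨hm1, hm2⟩ := hn₀ m (by omega)
  have step : ∀ u : ℂ, 1 + δ ≤ ‖u‖ → 2 * ‖u‖ ≤ ‖F P (m + 1) u‖ := by
    intro u hu
    have e1 : (1 + δ) ^ m ≤ ‖u‖ ^ m := pow_le_pow_left₀ (by linarith) hu m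
    have e2 : ‖u ^ (m + 1)‖ = ‖u‖ ^ m * ‖u‖ := by rw [norm_pow, pow_succ]
    have hu1 : 1 ≤ ‖u‖ := by linarith
    have e3 : R ≤ ‖u ^ (m + 1)‖ := by rw [e2]; nlinarith
    have e4 := hR _ e3
    rw [e2] at e4
    have e5 : 2 / c ≤ ‖u‖ ^ m := hm2.trans e1
    rw [div_le_iff₀ hc] at e5
    calc 2 * ‖u‖ ≤ (‖u‖ ^ m * c) * ‖u‖ := by gcongr
      _ = c * (‖u‖ ^ m * ‖u‖) := by ring
      _ ≤ _ := e4
  have key : ∀ k : ℕ, 2 ^ k ≤ ‖(F P (m + 1))^[k] z‖ ∧ 1 + δ ≤ ‖(F P (m + 1))^[k] z‖ := by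
    intro k
    induction k with
    | zero => exact ⟨by simpa using (by linarith : (1:ℝ) ≤ ‖z‖), hz⟩
    | succ k ih =>
      rw [Function.iterate_succ_apply']
      have := step _ ih.2
      refine ⟨?_, by linarith⟩
      rw [pow_succ]; linarith [ih.1]
  exact tendsto_atTop_mono (fun k => (key k).1)
    (tendsto_pow_atTop_atTop_of_one_lt (by norm_num))

end Pool.Agent.H307R3.ZO
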