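import Mathlib
import Pool.Agent.H307R3.ZO.Est

/-!
The disc around the origin for `z ↦ P(z ^ n)`, `n` large.
-/

set_option autoImplicit false
open Filter Topology Polynomial Metric

namespace Pool.Agent.H307R3.ZO

theorem eventually_small (k : ℕ) (B : ℝ) {ρ : ℝ} (hρ0 : 0 < ρ) (hρ1 : ρ < 1) {ε : ℝ} (hε : 0 < ε) :
    ∃ n₀ : ℕ, ∀ n, n₀ ≤ n → B * n ^ k * ρ ^ (n - 1) ≤ ε := by
  have h := tendsto_pow_const_mul_const_pow_of_abs_lt_one k (r := ρ) (by rwa [abs_of_pos hρ0])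
  have h2 := (h.const_mul (B / ρ))
  rw [mul_zero] at h2
  obtain ⟨n₀, hn₀⟩ := eventually_atTop.1 (h2.eventually_le_const hε)
  refine ⟨n₀ + 1, fun n hn => ?_⟩
  have h3 := hn₀ n (by omega)
  obtain ⟨m, rfl⟩ : ∃ m, n = m + 1 := ⟨n - 1, by omega⟩
  have e : B * ((m + 1 : ℕ) : ℝ) ^ k * ρ ^ (m + 1 - 1) =
      B / ρ * (((m + 1 : ℕ) : ℝ) ^ k * ρ ^ (m + 1)) := by
    rw [Nat.add_sub_cancel, pow_succ ρ m]
    field_simp
  rw [e]; exact h3

theorem F_zero (P : ℂ[X]) {n : ℕ} (hn : 1 ≤ n) : F P n 0 = P.eval 0 := by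
  unfold F
  rw [zero_pow (by omega)]

theorem chain {P : ℂ[X]} {L : ℝ} (hL1 : 1 ≤ L) (hL : ∀ x y : ℂ, ‖x‖ ≤ 3 → ‖y‖ ≤ 3 →
    ‖P.eval x - P.eval y‖ ≤ L * ‖x - y‖) {n : ℕ} (hn : 1 ≤ n) {ρ : ℝ} (hρ0 : 0 ≤ ρ) (hρ1 : ρ ≤ 1)
    {J : ℕ} (hsmall : (3 * L * n) ^ J * (L * n * ρ ^ (n - 1)) ≤ 1 / n) :
    ∀ j, j ≤ J → (∀ i, i < j → ‖(F P n)^[i] (P.eval 0)‖ = 1) → ∀ z w : ℂ, ‖z‖ ≤ ρ → ‖w‖ ≤ ρ →
      ‖(F P n)^[j + 1] z - (F P n)^[j + 1] w‖ ≤
        (3 * L * n) ^ j * (L * n * ρ ^ (n - 1)) * ‖z - w‖ := by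
  have hn' : (1:ℝ) ≤ n := by exact_mod_cast hn
  have hK : 1 ≤ 3 * L * n := by nlinarith
  have hb : 0 ≤ L * n * ρ ^ (n - 1) := by positivity
  intro j
  induction j with
  | zero =>
    intro _ _ z w hz hw
    simpa using F_lip_in (P := P) hL1 hL (n := n) hρ0 hρ1 hz hw
  | succ j ih =>
    intro hj h1 z w hz hw
    have ih' := ih (by omega) (fun i hi => h1 i (by omega))
    have hmod : ∀ u : ℂ, ‖u‖ ≤ ρ → ‖(F P n)^[j + 1] u‖ ≤ 1 + 1 / n := by
      intro u hu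
      have h2 := ih' u 0 hu (by simpa using hρ0)
      have h3 : (F P n)^[j + 1] 0 = (F P n)^[j] (P.eval 0) := by
        rw [Function.iterate_succ_apply, F_zero P hn]
      rw [h3, sub_zero] at h2
      have h4 := h1 j (by omega)
      have h5 : (3 * L * n) ^ j * (L * n * ρ ^ (n - 1)) * ‖u‖ ≤ 1 / n := by
        have a1 : (3 * L * n) ^ j ≤ (3 * L * n) ^ J := pow_le_pow_right₀ hK (by omega)
        have a2 : ‖u‖ ≤ 1 := hu.trans hρ1
        calc (3 * L * n) ^ j * (L * n * ρ ^ (n - 1)) * ‖u‖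
            ≤ (3 * L * n) ^ J * (L * n * ρ ^ (n - 1)) * 1 := by gcongr
          _ ≤ 1 / n := by rw [mul_one]; exact hsmall
      calc ‖(F P n)^[j + 1] u‖ ≤ ‖(F P n)^[j] (P.eval 0)‖ +
            ‖(F P n)^[j + 1] u - (F P n)^[j] (P.eval 0)‖ := by
            have := norm_add_le ((F P n)^[j] (P.eval 0))
              ((F P n)^[j + 1] u - (F P n)^[j] (P.eval 0))
            rwa [add_sub_cancel] at this
        _ ≤ 1 + 1 / n := by rw [h4]; linarith
    rw [Function.iterate_succ_apply' (F P n) (j + 1) z,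
      Function.iterate_succ_apply' (F P n) (j + 1) w]
    calc ‖F P n ((F P n)^[j + 1] z) - F P n ((F P n)^[j + 1] w)‖
        ≤ (3 * L * n) * ‖(F P n)^[j + 1] z - (F P n)^[j + 1] w‖ :=
          F_lip hL1 hL (hmod z hz) (hmod w hw)
      _ ≤ (3 * L * n) * ((3 * L * n) ^ j * (L * n * ρ ^ (n - 1)) * ‖z - w‖) := by
          gcongr
          exact ih' z w hz hw
      _ = _ := by ring

/-- the disc when the orbit of `P(0)` leaves the circle -/
theorem disc_A {P : ℂ[X]} (hP : 0 < P.natDegree) {δ : ℝ} (hδ : 0 < δ) (hδ1 : δ ≤ 1) (J : ℕ) :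
    ∃ n₀ : ℕ, ∀ n, n₀ ≤ n → ∀ j, j ≤ J →
      (∀ i, i < j → ‖(F P n)^[i] (P.eval 0)‖ = 1) →
      (‖(F P n)^[j] (P.eval 0)‖ ≤ 1 - δ ∨ 1 + δ ≤ ‖(F P n)^[j] (P.eval 0)‖) →
      ∀ z : ℂ, ‖z‖ ≤ 1 - δ / 2 → G (F P n) z := by
  obtain ⟨L, hL1, hL⟩ := poly_lip P
  obtain ⟨n₁, hn₁⟩ := esc_region hP (half_pos hδ)
  obtain ⟨n₂, hn₂⟩ := eventually_small (J + 2) (3 ^ J * L ^ (J + 1)) (ρ := 1 - δ / 2)
    (by linarith) (by linarith) (ε := min (δ / 4) (1 / 2)) (by positivity)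
  refine ⟨max 1 (max n₁ n₂), fun n hn j hj h1 h2 z hz => ?_⟩
  have hn1 : 1 ≤ n := (le_max_left _ _).trans hn
  have hnn₁ : n₁ ≤ n := (le_max_left _ _).trans ((le_max_right _ _).trans hn)
  have hnn₂ : n₂ ≤ n := (le_max_right _ _).trans ((le_max_right _ _).trans hn)
  have hn' : (1:ℝ) ≤ n := by exact_mod_cast hn1
  have hK : 1 ≤ 3 * L * n := by nlinarith
  set ρ : ℝ := 1 - δ / 2 with hρ
  have hρ0 : 0 ≤ ρ := by rw [hρ]; linarith
  have hρ1 : ρ ≤ 1 := by rw [hρ]; linarith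
  set a : ℝ := (3 * L * n) ^ J * (L * n * ρ ^ (n - 1)) with ha
  have ha0 : 0 ≤ a := by rw [ha]; positivity
  have han : a * n ≤ min (δ / 4) (1 / 2) := by
    have := hn₂ n hnn₂
    refine le_trans (le_of_eq ?_) this
    rw [ha]; ring
  have han1 : a * n ≤ δ / 4 := han.trans (min_le_left _ _)
  have han2 : a * n ≤ 1 / 2 := han.trans (min_le_right _ _)
  have haa : a ≤ a * n := by nlinarith
  have hsmall : a ≤ 1 / n := by
    rw [le_div_iff₀ (by linarith)]; linarith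
  have hc := chain hL1 hL hn1 hρ0 hρ1 hsmall j hj h1
  have hcle : ∀ z w : ℂ, ‖z‖ ≤ ρ → ‖w‖ ≤ ρ →
      ‖(F P n)^[j + 1] z - (F P n)^[j + 1] w‖ ≤ a * ‖z - w‖ := by
    intro z w hz hw
    refine (hc z w hz hw).trans ?_
    have a1 : (3 * L * n) ^ j ≤ (3 * L * n) ^ J := pow_le_pow_right₀ hK hj
    rw [ha]; gcongr
  have hzero : (F P n)^[j + 1] 0 = (F P n)^[j] (P.eval 0) := by
    rw [Function.iterate_succ_apply, F_zero P hn1]
  have hnear : ∀ u : ℂ, ‖u‖ ≤ ρ → ‖(F P n)^[j + 1] u - (F P n)^[j] (P.eval 0)‖ ≤ δ / 4 := by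
    intro u hu
    have h3 := hcle u 0 hu (by simpa using hρ0)
    rw [hzero, sub_zero] at h3
    have : a * ‖u‖ ≤ a * 1 := by gcongr; exact hu.trans hρ1
    linarith
  rcases h2 with h2 | h2
  · right
    refine att_of_contract (F_diff P n) (n := j + 1) (Nat.succ_pos j) (ρ := ρ) ?_ ?_ hz
    · intro u hu
      have h3 := hnear u hu
      have h4 := norm_add_le ((F P n)^[j] (P.eval 0))
              ((F P n)^[j + 1] u - (F P n)^[j] (P.eval 0))
      rw [add_sub_cancel] at h4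
      rw [hρ]; linarith
    · intro u w hu hw
      refine (hcle u w hu hw).trans ?_
      gcongr
      linarith
  · apply G_of_iter (F_diff P n) (j + 1)
    left
    apply hn₁ n hnn₁
    have h3 := hnear z hz
    have h4 := norm_sub_norm_le ((F P n)^[j] (P.eval 0)) ((F P n)^[j + 1] z)
    rw [norm_sub_rev] at h4
    linarith

/-- the disc when `P(0)` falls on a superattracting cycle of the circle -/
theorem disc_B (P : ℂ[X]) {δ : ℝ} (hδ : 0 < δ) (hδ1 : δ ≤ 1) (J : ℕ) :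
    ∃ n₀ : ℕ, ∀ n, n₀ ≤ n → ∀ a q, a ≤ J → q ≤ J → 0 < q →
      (∀ i, ‖(F P n)^[i] (P.eval 0)‖ = 1) →
      (F P n)^[q] ((F P n)^[a] (P.eval 0)) = (F P n)^[a] (P.eval 0) →
      (derivative P).eval (((F P n)^[a] (P.eval 0)) ^ n) = 0 →
      ∀ z : ℂ, ‖z‖ ≤ 1 - δ / 2 → G (F P n) z := by
  obtain ⟨L, hL1, hL⟩ := poly_lip P
  obtain ⟨M, hM1, hM⟩ := poly_quad P
  obtain ⟨n₂, hn₂⟩ := eventually_small (2 * J + 4) (3 ^ (2 * J) * L ^ (2 * J + 1) * (18 * M))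
    (ρ := 1 - δ / 2) (by linarith) (by linarith) (ε := 1) one_pos
  refine ⟨max 1 n₂, fun n hn a q ha hq hq0 h1 hper hcrit z hz => ?_⟩
  have hn1 : 1 ≤ n := (le_max_left _ _).trans hn
  have hnn₂ : n₂ ≤ n := (le_max_right _ _).trans hn
  have hn' : (1:ℝ) ≤ n := by exact_mod_cast hn1
  have hK : 1 ≤ 3 * L * n := by nlinarith
  set ρ : ℝ := 1 - δ / 2 with hρ
  have hρ0 : 0 ≤ ρ := by rw [hρ]; linarith
  have hρ1 : ρ ≤ 1 := by rw [hρ]; linarith
  set KJ : ℝ := (3 * L * n) ^ J with hKJ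
  have hKJ1 : 1 ≤ KJ := one_le_pow₀ hK
  set b : ℝ := KJ * (L * n * ρ ^ (n - 1)) with hb
  have hb0 : 0 ≤ b := by rw [hb]; positivity
  set C : ℝ := 9 * M * n ^ 2 with hC
  have hC1 : 1 ≤ C := by
    have : (1:ℝ) ≤ n ^ 2 := one_le_pow₀ hn'
    rw [hC]; nlinarith
  set s : ℝ := 1 / (2 * KJ * C * n) with hs
  have hKC : 1 ≤ KJ * C := one_le_mul_of_one_le_of_one_le hKJ1 hC1
  have hden : 0 < 2 * KJ * C * n := by positivity
  have hs0 : 0 < s := by rw [hs]; positivity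
  have hsn : KJ * C * s = 1 / (2 * n) := by
    rw [hs]; field_simp
  have hs1 : s ≤ 1 / n := by
    rw [hs]
    apply one_div_le_one_div_of_le (by linarith)
    nlinarith
  have hbs : b ≤ s := by
    rw [hs, le_div_iff₀ hden]
    have := hn₂ n hnn₂
    refine le_trans (le_of_eq ?_) this
    rw [hb, hC, hKJ]; ring
  have hsmall : b ≤ 1 / n := hbs.trans hs1
  have hn0 : (0:ℝ) < 1 / n := by positivity
  have hninv : 1 / (n:ℝ) ≤ 1 := by
    rw [div_le_one (by linarith)]; exact hn'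
  set x : ℂ := (F P n)^[a] (P.eval 0) with hx
  have hxi : ∀ i, ‖(F P n)^[i] x‖ = 1 := by
    intro i
    rw [hx, ← Function.iterate_add_apply]
    exact h1 _
  have hx1 : ‖x‖ = 1 := h1 a
  -- near the cycle
  have hcyc : ∀ w : ℂ, ‖w - x‖ ≤ s → ∀ i, i ≤ J → 0 < i →
      ‖(F P n)^[i] w - (F P n)^[i] x‖ ≤ (3 * L * n) ^ (i - 1) * (C * ‖w - x‖ ^ 2) := by
    intro w hw i
    have hbase : ∀ j, j ≤ J → (3 * L * n) ^ j * (C * ‖w - x‖ ^ 2) ≤ 1 / n := by
      intro j hj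
      have a1 : (3 * L * n) ^ j ≤ KJ := pow_le_pow_right₀ hK hj
      have a2 : ‖w - x‖ ^ 2 ≤ s * s := by
        rw [pow_two]; gcongr
      calc (3 * L * n) ^ j * (C * ‖w - x‖ ^ 2) ≤ KJ * (C * (s * s)) := by gcongr
        _ = (KJ * C * s) * s := by ring
        _ = 1 / (2 * n) * s := by rw [hsn]
        _ ≤ 1 * (1 / n) := by
            gcongr
            rw [div_le_one (by positivity)]; linarith
        _ = 1 / n := one_mul _
    induction i with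
    | zero => intro _ h; exact absurd h (lt_irrefl _)
    | succ i ih =>
      intro hi _
      rcases Nat.eq_zero_or_pos i with h0 | h0
      · subst h0
        have hw1 : ‖w‖ ≤ 1 + 1 / n := by
          have := norm_add_le x (w - x)
          rw [add_sub_cancel] at this
          linarith
        simpa using F_quad hM1 hM hw1 (by rw [hx1]; linarith) hcrit
      · have ih' := ih (by omega) h0
        have hwi : ‖(F P n)^[i] w‖ ≤ 1 + 1 / n := by
          have h3 := norm_add_le ((F P n)^[i] x) ((F P n)^[i] w - (F P n)^[i] x)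
          rw [add_sub_cancel, hxi i] at h3
          have := hbase (i - 1) (by omega)
          linarith
        have hxi' : ‖(F P n)^[i] x‖ ≤ 1 + 1 / n := by rw [hxi i]; linarith
        rw [Function.iterate_succ_apply' (F P n) i w, Function.iterate_succ_apply' (F P n) i x]
        calc _ ≤ (3 * L * n) * ‖(F P n)^[i] w - (F P n)^[i] x‖ := F_lip hL1 hL hwi hxi'
          _ ≤ (3 * L * n) * ((3 * L * n) ^ (i - 1) * (C * ‖w - x‖ ^ 2)) := by gcongr
          _ = (3 * L * n) ^ (i - 1 + 1) * (C * ‖w - x‖ ^ 2) := by ring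
          _ = _ := by rw [Nat.sub_add_cancel h0, Nat.add_sub_cancel]
  have hcontr : ∀ w : ℂ, ‖w - x‖ ≤ s → ‖(F P n)^[q] w - x‖ ≤ 1 / 2 * ‖w - x‖ := by
    intro w hw
    have h3 := hcyc w hw q hq hq0
    rw [hper] at h3
    refine h3.trans ?_
    have a1 : (3 * L * n) ^ (q - 1) ≤ KJ := pow_le_pow_right₀ hK (by omega)
    calc (3 * L * n) ^ (q - 1) * (C * ‖w - x‖ ^ 2)
        = (3 * L * n) ^ (q - 1) * (C * ‖w - x‖) * ‖w - x‖ := by ring
      _ ≤ KJ * (C * s) * ‖w - x‖ := by gcongr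
      _ = (KJ * C * s) * ‖w - x‖ := by ring
      _ = 1 / (2 * n) * ‖w - x‖ := by rw [hsn]
      _ ≤ 1 / 2 * ‖w - x‖ := by
          gcongr
          linarith
  apply G_of_iter (F_diff P n) (a + 1)
  right
  refine att_of_near (F_diff P n) hq0 hper hs0 hcontr ?_
  have h4 := chain hL1 hL hn1 hρ0 hρ1 hsmall a ha (fun i _ => h1 i) z 0 hz (by simpa using hρ0)
  have hzero : (F P n)^[a + 1] 0 = x := by
    rw [Function.iterate_succ_apply, F_zero P hn1]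
  rw [hzero, sub_zero] at h4
  refine h4.trans ?_
  have a1 : (3 * L * n) ^ a ≤ KJ := pow_le_pow_right₀ hK ha
  calc (3 * L * n) ^ a * (L * n * ρ ^ (n - 1)) * ‖z‖
      ≤ KJ * (L * n * ρ ^ (n - 1)) * 1 := by
        gcongr
        exact hz.trans hρ1
    _ = b := by rw [mul_one]
    _ ≤ s := hbs

end Pool.Agent.H307R3.ZO
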