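import Mathlib
import Pool.Agent.H307R3.ZO.Disc
import Pool.Agent.H307R3.ZO.Circ

/-!
Zero-one law on residue classes for the hyperbolicity of `P(z ^ n)`.
-/

set_option autoImplicit false
open Filter Topology Polynomial Metric Set

namespace Pool.Agent.H307R3.ZO

/-- hyperbolic polynomials, with the formula of the frozen statement `S04139` -/
def Hyperbolic (S : ℂ[X]) : Prop :=
  ∀ c : ℂ, S.derivative.eval c = 0 →
    (Filter.Tendsto (fun k : ℕ => ‖(fun w : ℂ => S.eval w)^[k] c‖) Filter.atTop Filter.atTop ∨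
      ∃ n : ℕ, 0 < n ∧ ∃ z : ℂ, (fun w : ℂ => S.eval w)^[n] z = z ∧
        ‖deriv ((fun w : ℂ => S.eval w)^[n]) z‖ < 1 ∧
        Filter.Tendsto (fun k : ℕ => (fun w : ℂ => S.eval w)^[n * k] c) Filter.atTop (nhds z))

/-- the critical values of the maps `P(z ^ n)`, `n ≥ 2` -/
def Marked (P : ℂ[X]) (v : ℂ) : Prop :=
  v = P.eval 0 ∨ ∃ y : ℂ, P.derivative.eval y = 0 ∧ v = P.eval y

/-- the orbit of `v` under `P(z ^ r)` consists of roots of unity and avoids the critical points from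
some time on -/
def Landing (P : ℂ[X]) (r : ℕ) (v : ℂ) : Prop :=
  (∀ i : ℕ, (F P r)^[i] v ∈ U) ∧
    ∃ I : ℕ, ∀ i, I ≤ i → P.derivative.eval (((F P r)^[i] v) ^ r) ≠ 0

theorem F_eq (P : ℂ[X]) (n : ℕ) : (fun w : ℂ => (expand ℂ n P).eval w) = F P n := by
  funext w
  rw [expand_eval]; rfl

theorem hyp_iff (P : ℂ[X]) (n : ℕ) : Hyperbolic (expand ℂ n P) ↔
    ∀ c : ℂ, (expand ℂ n P).derivative.eval c = 0 → G (F P n) c := by
  unfold Hyperbolic
  rw [F_eq]; rfl

theorem crit_eval (P : ℂ[X]) (n : ℕ) (c : ℂ) : (derivative (expand ℂ n P)).eval c =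
    P.derivative.eval (c ^ n) * (n * c ^ (n - 1)) := by
  rw [derivative_expand]
  simp [expand_eval]

theorem hyp_of_marked {P : ℂ[X]} {n : ℕ} (hn : 2 ≤ n) (h : ∀ v, Marked P v → G (F P n) v) :
    Hyperbolic (expand ℂ n P) := by
  rw [hyp_iff]
  intro c hc
  rw [crit_eval] at hc
  apply G_of_image (F_diff P n)
  apply h
  rcases mul_eq_zero.1 hc with h1 | h1
  · right; exact ⟨c ^ n, h1, rfl⟩
  · left
    have : c = 0 := by
      rcases mul_eq_zero.1 h1 with h2 | h2
      · exact absurd (by exact_mod_cast h2) (by omega : n ≠ 0)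
      · exact (pow_eq_zero_iff (by omega)).1 h2
    rw [this]; exact F_zero P (by omega)

theorem exists_crit {P : ℂ[X]} {n : ℕ} (hn : 2 ≤ n) {v : ℂ} (hv : Marked P v) :
    ∃ c : ℂ, (expand ℂ n P).derivative.eval c = 0 ∧ F P n c = v := by
  rcases hv with rfl | ⟨y, hy, rfl⟩
  · refine ⟨0, ?_, F_zero P (by omega)⟩
    rw [crit_eval, zero_pow (by omega : n - 1 ≠ 0)]; simp
  · obtain ⟨c, hc⟩ := IsAlgClosed.exists_pow_nat_eq y (by omega : 0 < n)
    exact ⟨c, by rw [crit_eval, hc, hy, zero_mul], by unfold F; rw [hc]⟩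

def T (P : ℂ[X]) : Set ℂ := {v | Marked P v} ∪ (fun u => P.eval u) '' (eqSet P 1)

def W (P : ℂ[X]) : Set ℂ := T P ∩ U

theorem marked_finite {P : ℂ[X]} (hP : 0 < P.natDegree) : {v | Marked P v}.Finite := by
  have hd : P.derivative ≠ 0 := fun h => hP.ne' (natDegree_eq_zero_of_derivative_eq_zero h)
  have h1 : {y : ℂ | P.derivative.eval y = 0}.Finite := by
    refine (Multiset.toFinset P.derivative.roots).finite_toSet.subset ?_
    intro y hy
    rw [Finset.mem_coe, Multiset.mem_toFinset, Polynomial.mem_roots hd]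
    exact hy
  refine ((Set.finite_singleton (P.eval 0)).union (h1.image fun y => P.eval y)).subset ?_
  rintro v (rfl | ⟨y, hy, rfl⟩)
  · exact Or.inl rfl
  · exact Or.inr ⟨y, hy, rfl⟩

theorem W_finite {P : ℂ[X]} (hP : 0 < P.natDegree) (hE : (eqSet P 1).Finite) : (W P).Finite :=
  ((marked_finite hP).union (hE.image _)).subset inter_subset_left

theorem stay {P : ℂ[X]} {r : ℕ} {v : ℂ} (hv : Marked P v) : ∀ k : ℕ,
    (∀ l, l ≤ k → (F P r)^[l] v ∈ U) → (F P r)^[k] v ∈ W P := by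
  intro k
  induction k with
  | zero => intro h; exact ⟨Or.inl hv, h 0 le_rfl⟩
  | succ k ih =>
    intro h
    have hw := ih fun l hl => h l (by omega)
    have h1 := h (k + 1) le_rfl
    refine ⟨Or.inr ⟨((F P r)^[k] v) ^ r, ⟨?_, ?_⟩, ?_⟩, h1⟩
    · rw [norm_pow, norm_U hw.2, one_pow]
    · rw [eval_one, norm_one]
      have := norm_U h1
      rw [Function.iterate_succ_apply'] at this
      exact this
    · rw [Function.iterate_succ_apply']; rfl

theorem agree {P : ℂ[X]} {m n r : ℕ} {v : ℂ} (hm : ∀ w ∈ W P, w ^ m = 1) (h : n % m = r % m)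
    (hv : Marked P v) : ∀ k : ℕ, (∀ l, l < k → (F P r)^[l] v ∈ U) →
      (F P n)^[k] v = (F P r)^[k] v := by
  intro k
  induction k with
  | zero => intro _; rfl
  | succ k ih =>
    intro hk
    rw [Function.iterate_succ_apply', Function.iterate_succ_apply', ih fun l hl => hk l (by omega)]
    have hw := stay hv k fun l hl => hk l (by omega)
    show P.eval (((F P r)^[k] v) ^ n) = P.eval (((F P r)^[k] v) ^ r)
    rw [pow_congr_mod (hm _ hw) h]

def DatA (P : ℂ[X]) (r J : ℕ) (X : Set ℂ) (v : ℂ) : Prop :=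
  ∃ i, i ≤ J ∧ (∀ k, k < i → (F P r)^[k] v ∈ U) ∧ (F P r)^[i] v ∈ X

def DatB (P : ℂ[X]) (r J : ℕ) (v : ℂ) : Prop :=
  ∃ a q, a ≤ J ∧ q ≤ J ∧ 0 < q ∧ (∀ k, (F P r)^[k] v ∈ U) ∧
    (F P r)^[q] ((F P r)^[a] v) = (F P r)^[a] v ∧
    P.derivative.eval (((F P r)^[a] v) ^ r) = 0

theorem uniform {P : ℂ[X]} {r : ℕ} {S : Set ℂ} (hS : S.Finite) :
    (∀ v ∈ S, (∃ J, ∃ x : ℂ, x ∉ U ∧ DatA P r J {x} v) ∨ ∃ J, DatB P r J v) →
    ∃ J : ℕ, ∃ X : Set ℂ, X.Finite ∧ (∀ x ∈ X, x ∉ U) ∧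
      ∀ v ∈ S, DatA P r J X v ∨ DatB P r J v := by
  induction S, hS using Set.Finite.induction_on with
  | empty => exact fun _ => ⟨0, ∅, Set.finite_empty, by simp, by simp⟩
  | @insert a M _ _ ih =>
    intro h
    obtain ⟨J, X, hX, hXU, hd⟩ := ih fun v hv => h v (Or.inr hv)
    rcases h a (Or.inl rfl) with ⟨J', x, hx, i, hi, h1, h2⟩ | ⟨J', b, q, hb, hq, h1⟩
    · refine ⟨max J J', insert x X, hX.insert x, ?_, ?_⟩
      · rintro y (rfl | hy)
        · exact hx
        · exact hXU y hy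
      · rintro v (rfl | hv)
        · left
          exact ⟨i, hi.trans (le_max_right _ _), h1, Or.inl h2⟩
        · rcases hd v hv with ⟨i', hi', h3, h4⟩ | ⟨b, q, hb, hq, h3⟩
          · left
            exact ⟨i', hi'.trans (le_max_left _ _), h3, Or.inr h4⟩
          · right
            exact ⟨b, q, hb.trans (le_max_left _ _), hq.trans (le_max_left _ _), h3⟩
    · refine ⟨max J J', X, hX, hXU, ?_⟩
      rintro v (rfl | hv)
      · right
        exact ⟨b, q, hb.trans (le_max_right _ _), hq.trans (le_max_right _ _), h1⟩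
      · rcases hd v hv with ⟨i', hi', h3, h4⟩ | ⟨b, q, hb, hq, h3⟩
        · left
          exact ⟨i', hi'.trans (le_max_left _ _), h3, h4⟩
        · right
          exact ⟨b, q, hb.trans (le_max_left _ _), hq.trans (le_max_left _ _), h3⟩

theorem point_data {P : ℂ[X]} {r : ℕ} {v : ℂ} (hv : Marked P v) (hWf : (W P).Finite)
    (hnl : ¬ Landing P r v) :
    (∃ J, ∃ x : ℂ, x ∉ U ∧ DatA P r J {x} v) ∨ ∃ J, DatB P r J v := by
  classical
  by_cases hex : ∃ i, (F P r)^[i] v ∉ U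
  · left
    refine ⟨Nat.find hex, _, Nat.find_spec hex, Nat.find hex, le_rfl, fun k hk => ?_, rfl⟩
    exact not_not.1 (Nat.find_min hex hk)
  · push Not at hex
    right
    have h1 : ¬ ∃ I : ℕ, ∀ i, I ≤ i → P.derivative.eval (((F P r)^[i] v) ^ r) ≠ 0 :=
      fun h => hnl ⟨hex, h⟩
    push Not at h1
    have hinf : {i : ℕ | P.derivative.eval (((F P r)^[i] v) ^ r) = 0}.Infinite := by
      rw [← Nat.frequently_atTop_iff_infinite, frequently_atTop]
      intro I
      obtain ⟨i, hi, h2⟩ := h1 I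
      exact ⟨i, hi, h2⟩
    obtain ⟨a, ha, b, hb, hab, heq⟩ := hinf.exists_ne_map_eq_of_mapsTo
      (f := fun i => (F P r)^[i] v) (t := W P) (fun i _ => stay hv i fun l _ => hex l) hWf
    have main : ∀ a b : ℕ, a < b → P.derivative.eval (((F P r)^[a] v) ^ r) = 0 →
        (F P r)^[a] v = (F P r)^[b] v → ∃ J, DatB P r J v := by
      intro a b hlt ha heq
      refine ⟨max a (b - a), a, b - a, le_max_left _ _, le_max_right _ _, by omega, hex, ?_, ha⟩
      rw [← Function.iterate_add_apply, Nat.sub_add_cancel hlt.le]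
      exact heq.symm
    rcases lt_or_gt_of_ne hab with hlt | hlt
    · exact main a b hlt ha heq
    · exact main b a hlt hb heq.symm

theorem norm_gap {X : Set ℂ} (hX : X.Finite) : ∃ η : ℝ, 0 < η ∧ ∀ x ∈ X, ‖x‖ ≠ 1 →
    ‖x‖ ≤ 1 - η ∨ 1 + η ≤ ‖x‖ := by
  induction X, hX using Set.Finite.induction_on with
  | empty => exact ⟨1, one_pos, by simp⟩
  | @insert a M _ _ ih =>
    obtain ⟨η, hη, h⟩ := ih
    by_cases ha : ‖a‖ = 1
    · refine ⟨η, hη, ?_⟩
      rintro x (rfl | hx) hx1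
      · exact absurd ha hx1
      · exact h x hx hx1
    · have hpos : 0 < |‖a‖ - 1| := abs_pos.2 (sub_ne_zero.2 ha)
      refine ⟨min η |‖a‖ - 1|, lt_min hη hpos, ?_⟩
      rintro x (rfl | hx) hx1
      · rcases le_total 1 ‖x‖ with h1 | h1
        · right
          have := min_le_right η |‖x‖ - 1|
          rw [abs_of_nonneg (by linarith : 0 ≤ ‖x‖ - 1)] at this ⊢
          linarith
        · left
          have := min_le_right η |‖x‖ - 1|
          rw [abs_of_nonpos (by linarith : ‖x‖ - 1 ≤ 0)] at this ⊢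
          linarith
      · have := min_le_left η |‖a‖ - 1|
        rcases h x hx hx1 with h1 | h1
        · left; linarith
        · right; linarith

theorem gap_all {X : Set ℂ} (hX : X.Finite) (L : ℕ) : (∀ x ∈ X, x ∉ U) →
    ∃ δ : ℝ, 0 < δ ∧ ∀ x ∈ X, ‖x‖ = 1 → ∀ w : ℂ, ∀ n ∈ {n : ℕ | ‖x ^ n - w‖ < δ},
      ∀ m ∈ {n : ℕ | ‖x ^ n - w‖ < δ}, n < m → n + L < m := by
  induction X, hX using Set.Finite.induction_on with
  | empty => exact fun _ => ⟨1, one_pos, by simp⟩
  | @insert a M _ _ ih =>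
    intro hU
    obtain ⟨δ, hδ, h1⟩ := ih fun x hx => hU x (Or.inr hx)
    by_cases hanorm : ‖a‖ = 1
    · obtain ⟨δ', hδ', h4⟩ := gap_of_not_root hanorm
        (fun k hk h => hU a (Or.inl rfl) ⟨k, hk, h⟩) L
      refine ⟨min δ δ', lt_min hδ hδ', ?_⟩
      rintro x (rfl | hx) hxe w n hn m hm hnm
      · rw [Set.mem_ofPred_eq] at hn hm
        exact h4 w n (hn.trans_le (min_le_right _ _)) m (hm.trans_le (min_le_right _ _)) hnm
      · rw [Set.mem_ofPred_eq] at hn hm
        exact h1 x hx hxe w n (hn.trans_le (min_le_left _ _)) m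
          (hm.trans_le (min_le_left _ _)) hnm
    · refine ⟨δ, hδ, ?_⟩
      rintro x (rfl | hx) hxe
      · exact absurd hxe hanorm
      · exact h1 x hx hxe

end Pool.Agent.H307R3.ZO
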