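import Mathlib
import Pool.Agent.H307R3.ZO.Main

/-!
Zero-one law on residue classes for the hyperbolicity of `P(z ^ n)`: conclusion.
-/

set_option autoImplicit false
open Filter Topology Polynomial Metric Set

namespace Pool.Agent.H307R3.ZO

theorem positive {P : ℂ[X]} (hP : 0 < P.natDegree) (hE : (eqSet P 1).Finite) {m : ℕ}
    (hm : ∀ w ∈ W P, w ^ m = 1) {r : ℕ} (hgood : ¬ ∃ v, Marked P v ∧ Landing P r v) :
    ∃ c : ℕ, ∀ L : ℕ, ∃ n₀ : ℕ, ∀ N : ℕ,
      ({n : ℕ | 2 ≤ n ∧ n % m = r % m ∧ ¬ Hyperbolic (expand ℂ n P)} ∩ Iio N).ncard ≤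
        n₀ + c * (N / (L + 1) + 1) := by
  classical
  have hWf := W_finite hP hE
  obtain ⟨J, X, hXf, hXU, hdat⟩ := uniform (r := r) (marked_finite hP)
    (fun v hv => point_data hv hWf fun h => hgood ⟨v, hv, h⟩)
  set K : Finset (ℂ × ℂ) := hXf.toFinset ×ˢ hE.toFinset with hK
  refine ⟨K.card, fun L => ?_⟩
  obtain ⟨δ', hδ', hgap⟩ := gap_all hXf L hXU
  obtain ⟨η₁, hη₁, hng⟩ := norm_gap hXf
  obtain ⟨η₂, hη₂, hoff⟩ := off_circle P hδ'
  set δ : ℝ := min (min η₁ η₂) 1 with hδ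
  have hδ0 : 0 < δ := lt_min (lt_min hη₁ hη₂) one_pos
  have hδ1 : δ ≤ 1 := min_le_right _ _
  have hδη₁ : δ ≤ η₁ := (min_le_left _ _).trans (min_le_left _ _)
  have hδη₂ : δ ≤ η₂ := (min_le_left _ _).trans (min_le_right _ _)
  obtain ⟨n₁, hn₁⟩ := disc_A hP hδ0 hδ1 (J + 1)
  obtain ⟨n₂, hn₂⟩ := disc_B P hδ0 hδ1 J
  obtain ⟨n₃, hn₃⟩ := esc_region hP hδ0
  set n₀ : ℕ := max n₁ (max n₂ n₃) with hn₀
  have claim : ∀ n, n₀ ≤ n → 2 ≤ n → n % m = r % m →
      (∀ x ∈ X, ‖x‖ = 1 → ∀ w ∈ eqSet P 1, δ' ≤ ‖x ^ n - w‖) → Hyperbolic (expand ℂ n P) := by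
    intro n hn hn2 hnr hfar
    have hnn₁ : n₁ ≤ n := (le_max_left _ _).trans hn
    have hnn₂ : n₂ ≤ n := (le_max_left _ _).trans ((le_max_right _ _).trans hn)
    have hnn₃ : n₃ ≤ n := (le_max_right _ _).trans ((le_max_right _ _).trans hn)
    have hreg2 : ∀ x ∈ X, ‖x‖ = 1 → (‖F P n x‖ ≤ 1 - δ ∨ 1 + δ ≤ ‖F P n x‖) := by
      intro x hx hx1
      rcases hoff (x ^ n) (by rw [norm_pow, hx1, one_pow]) (hfar x hx hx1) with h | h
      · left
        show ‖P.eval (x ^ n)‖ ≤ 1 - δ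
        linarith
      · right
        show 1 + δ ≤ ‖P.eval (x ^ n)‖
        linarith
    have hreg1 : ∀ x ∈ X, ‖x‖ ≠ 1 → (‖x‖ ≤ 1 - δ ∨ 1 + δ ≤ ‖x‖) := by
      intro x hx hx1
      rcases hng x hx hx1 with h | h
      · left; linarith
      · right; linarith
    have hP0 : Marked P (P.eval 0) := Or.inl rfl
    have hdisc : ∀ z : ℂ, ‖z‖ ≤ 1 - δ / 2 → G (F P n) z := by
      rcases hdat (P.eval 0) hP0 with ⟨i, hi, hk, hx⟩ | ⟨a, q, ha, hq, hq0, hU, hper, hcr⟩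
      · have hag : ∀ k, k ≤ i → (F P n)^[k] (P.eval 0) = (F P r)^[k] (P.eval 0) := fun k hki =>
          agree hm hnr hP0 k fun l hl => hk l (by omega)
        by_cases hx1 : ‖(F P r)^[i] (P.eval 0)‖ = 1
        · refine hn₁ n hnn₁ (i + 1) (by omega) ?_ ?_
          · intro l hl
            rw [hag l (by omega)]
            rcases Nat.lt_or_ge l i with h | h
            · exact norm_U (hk l h)
            · have : l = i := by omega
              rw [this]; exact hx1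
          · rw [Function.iterate_succ_apply', hag i le_rfl]
            exact hreg2 _ hx hx1
        · refine hn₁ n hnn₁ i (by omega) ?_ ?_
          · intro l hl
            rw [hag l (by omega)]
            exact norm_U (hk l hl)
          · rw [hag i le_rfl]
            exact hreg1 _ hx hx1
      · have hag : ∀ k, (F P n)^[k] (P.eval 0) = (F P r)^[k] (P.eval 0) := fun k =>
          agree hm hnr hP0 k fun l _ => hU l
        refine hn₂ n hnn₂ a q ha hq hq0 ?_ ?_ ?_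
        · intro i; rw [hag i]; exact norm_U (hU i)
        · rw [← Function.iterate_add_apply, hag, hag, Function.iterate_add_apply]
          exact hper
        · rw [hag a]
          have hw := stay hP0 a fun l _ => hU l
          rw [pow_congr_mod (hm _ hw) hnr]
          exact hcr
    have hreg : ∀ z : ℂ, (‖z‖ ≤ 1 - δ ∨ 1 + δ ≤ ‖z‖) → G (F P n) z := by
      rintro z (h | h)
      · exact hdisc z (by linarith)
      · exact Or.inl (hn₃ n hnn₃ z h)
    have hXG : ∀ x ∈ X, G (F P n) x := by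
      intro x hx
      by_cases hx1 : ‖x‖ = 1
      · exact G_of_image (F_diff P n) (hreg _ (hreg2 x hx hx1))
      · exact hreg _ (hreg1 x hx hx1)
    refine hyp_of_marked hn2 fun v hv => ?_
    rcases hdat v hv with ⟨i, hi, hk, hx⟩ | ⟨a, q, ha, hq, hq0, hU, hper, hcr⟩
    · apply G_of_iter (F_diff P n) i
      rw [agree hm hnr hv i hk]
      exact hXG _ hx
    · apply G_of_iter (F_diff P n) a
      have hag : ∀ k, (F P n)^[k] v = (F P r)^[k] v := fun k => agree hm hnr hv k fun l _ => hU l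
      right
      refine att_super (F_diff P n) hq0 ?_ ?_
      · rw [← Function.iterate_add_apply, hag, hag, Function.iterate_add_apply]
        exact hper
      · rw [hag a, F_deriv]
        have hw := stay hv a fun l _ => hU l
        rw [pow_congr_mod (hm _ hw) hnr, hcr, zero_mul]
  refine ⟨n₀, fun N => ?_⟩
  set Bad : Set ℕ := {n : ℕ | 2 ≤ n ∧ n % m = r % m ∧ ¬ Hyperbolic (expand ℂ n P)} with hBad
  set S : ℂ × ℂ → Set ℕ := fun j => {n | ‖j.1‖ = 1 ∧ ‖j.1 ^ n - j.2‖ < δ'} with hS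
  have hincl : ∀ n, n₀ ≤ n → n ∈ Bad → ∃ j ∈ K, n ∈ S j := by
    intro n hn hbad
    by_contra hcon
    push Not at hcon
    apply hbad.2.2
    refine claim n hn hbad.1 hbad.2.1 ?_
    intro x hx hx1 w hw
    have h2 := hcon (x, w) (Finset.mem_product.2 ⟨hXf.mem_toFinset.2 hx, hE.mem_toFinset.2 hw⟩)
    rw [hS, Set.mem_ofPred_eq] at h2
    push Not at h2
    exact h2 hx1
  have h1 : Bad ∩ Iio N ⊆ ↑(Finset.range n₀ ∪
      K.biUnion fun j => (Finset.range N).filter (· ∈ S j)) := by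
    rintro n ⟨hn1, hn2⟩
    rw [Finset.coe_union]
    rcases lt_or_ge n n₀ with h | h
    · left; simpa using h
    · right
      obtain ⟨j, hj, hnj⟩ := hincl n h hn1
      rw [Finset.mem_coe, Finset.mem_biUnion]
      exact ⟨j, hj, Finset.mem_filter.2 ⟨Finset.mem_range.2 hn2, hnj⟩⟩
  have h2 : (Bad ∩ Iio N).ncard ≤ (Finset.range n₀ ∪
      K.biUnion fun j => (Finset.range N).filter (· ∈ S j)).card := by
    rw [← Set.ncard_coe_finset]
    exact Set.ncard_le_ncard h1 (Finset.finite_toSet _)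
  refine h2.trans ((Finset.card_union_le _ _).trans ?_)
  rw [Finset.card_range]
  apply Nat.add_le_add_left
  apply Finset.card_biUnion_le_card_mul
  intro j hj
  apply card_gap
  intro n hn k hk hnk
  exact hgap j.1 (hXf.mem_toFinset.1 (Finset.mem_product.1 hj).1) hn.1 j.2 n hn.2 k hk.2 hnk

theorem density_zero {Bad : Set ℕ} {c' : ℕ} (key : ∀ L : ℕ, ∃ n₀ : ℕ, ∀ N : ℕ,
      (Bad ∩ Iio N).ncard ≤ n₀ + c' * (N / (L + 1) + 1)) :
    Tendsto (fun N : ℕ => (((Bad ∩ Iio N).ncard : ℕ) : ℝ) / N) atTop (𝓝 0) := by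
  rw [Metric.tendsto_atTop]
  intro ε hε
  set c : ℝ := (c' : ℝ) with hcdef
  have hc0 : 0 ≤ c := Nat.cast_nonneg _
  obtain ⟨L, hL⟩ := exists_nat_gt (2 * c / ε)
  obtain ⟨n₀, hn₀⟩ := key L
  obtain ⟨N₀, hN₀⟩ := exists_nat_gt ((n₀ + c) / (ε / 2))
  refine ⟨N₀ + 1, fun N hN => ?_⟩
  have hN0 : (0:ℝ) < N := by exact_mod_cast (by omega : 0 < N)
  rw [Real.dist_eq, sub_zero, abs_of_nonneg (by positivity), div_lt_iff₀ hN0]
  have h1 : ((Bad ∩ Iio N).ncard : ℝ) ≤ n₀ + c * ((N / (L + 1) : ℕ) + 1) := by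
    rw [hcdef]
    exact_mod_cast hn₀ N
  have hL1 : (0:ℝ) < (L:ℝ) + 1 := by positivity
  have h2 : ((N / (L + 1) : ℕ) : ℝ) ≤ N / ((L:ℝ) + 1) := by
    have := Nat.cast_div_le (α := ℝ) (m := N) (n := L + 1)
    push_cast at this
    exact this
  have h3 : c * (N / ((L:ℝ) + 1)) ≤ N * (ε / 2) := by
    rw [div_lt_iff₀ hε] at hL
    rw [mul_div_assoc', div_le_iff₀ hL1]
    nlinarith
  have h4 : (N₀:ℝ) < N := by exact_mod_cast (by omega : N₀ < N)
  have h5 : (n₀ + c : ℝ) < N * (ε / 2) := by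
    rw [div_lt_iff₀ (half_pos hε)] at hN₀
    exact hN₀.trans (by gcongr)
  have h6 : c * ((N / (L + 1) : ℕ) : ℝ) ≤ c * (N / ((L:ℝ) + 1)) :=
    mul_le_mul_of_nonneg_left h2 hc0
  nlinarith

theorem exists_min {P : ℂ[X]} {r : ℕ} {S : Set ℂ} (hS : S.Finite) : ∃ μ : ℝ, 0 < μ ∧ ∀ w ∈ S,
    P.derivative.eval (w ^ r) ≠ 0 → μ ≤ ‖P.derivative.eval (w ^ r)‖ := by
  induction S, hS using Set.Finite.induction_on with
  | empty => exact ⟨1, one_pos, by simp⟩
  | @insert a M _ _ ih =>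
    obtain ⟨μ, hμ, h⟩ := ih
    by_cases ha : P.derivative.eval (a ^ r) = 0
    · refine ⟨μ, hμ, ?_⟩
      rintro w (rfl | hw) h0
      · exact absurd ha h0
      · exact h w hw h0
    · refine ⟨min μ ‖P.derivative.eval (a ^ r)‖, lt_min hμ (norm_pos_iff.2 ha), ?_⟩
      rintro w (rfl | hw) h0
      · exact min_le_right _ _
      · exact (min_le_left _ _).trans (h w hw h0)

theorem negative {P : ℂ[X]} (hP : 0 < P.natDegree) (hE : (eqSet P 1).Finite) {m : ℕ}
    (hm : ∀ w ∈ W P, w ^ m = 1) {r : ℕ} (hbad : ∃ v, Marked P v ∧ Landing P r v) :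
    ∃ n₀ : ℕ, ∀ n, n₀ ≤ n → n % m = r % m → ¬ Hyperbolic (expand ℂ n P) := by
  have hWf := W_finite hP hE
  obtain ⟨v, hv, hU, I, hI⟩ := hbad
  obtain ⟨μ, hμ, hmin⟩ := exists_min (P := P) (r := r) hWf
  obtain ⟨n₀, hn₀⟩ := exists_nat_gt (1 / μ)
  refine ⟨max 2 n₀, fun n hn hnr hyp => ?_⟩
  have hn2 : 2 ≤ n := (le_max_left _ _).trans hn
  have hnn : n₀ ≤ n := (le_max_right _ _).trans hn
  have hag : ∀ k, (F P n)^[k] v = (F P r)^[k] v := fun k => agree hm hnr hv k fun l _ => hU l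
  have hst : ∀ k, (F P r)^[k] v ∈ W P := fun k => stay hv k fun l _ => hU l
  obtain ⟨c, hc, hcv⟩ := exists_crit hn2 hv
  rw [hyp_iff] at hyp
  refine not_G (F_diff P n) (z := c) (S := insert c (W P)) (hWf.insert c) ?_ (I + 1) ?_ (hyp c hc)
  · intro i
    cases i with
    | zero => exact Or.inl rfl
    | succ i =>
      right
      rw [Function.iterate_succ_apply, hcv, hag]
      exact hst i
  · intro i hi
    obtain ⟨j, rfl⟩ : ∃ j, i = j + 1 := ⟨i - 1, by omega⟩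
    rw [Function.iterate_succ_apply, hcv, hag, F_deriv]
    have hw := hst j
    rw [pow_congr_mod (hm _ hw) hnr, norm_mul, norm_mul, norm_pow, norm_U hw.2, one_pow, mul_one,
      Complex.norm_natCast]
    have h1 := hmin _ hw (hI j (by omega))
    have h2 : (n₀ : ℝ) ≤ n := by exact_mod_cast hnn
    rw [div_lt_iff₀ hμ] at hn₀
    nlinarith

theorem main (P : ℂ[X]) (hP : 0 < P.natDegree) (hne : ∃ u : ℂ, ‖u‖ = 1 ∧ ‖P.eval u‖ ≠ 1) :
    ∃ m : ℕ, 0 < m ∧ ∀ r : ℕ,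
      ((¬ ∃ v, Marked P v ∧ Landing P r v) →
        Tendsto (fun N : ℕ => ((({n : ℕ | 2 ≤ n ∧ n % m = r % m ∧
          ¬ Hyperbolic (expand ℂ n P)} ∩ Iio N).ncard : ℕ) : ℝ) / N) atTop (𝓝 0)) ∧
      ((∃ v, Marked P v ∧ Landing P r v) →
        ∃ n₀ : ℕ, ∀ n, n₀ ≤ n → n % m = r % m → ¬ Hyperbolic (expand ℂ n P)) := by
  have hE : (eqSet P 1).Finite := by
    apply eqSet_finite
    obtain ⟨u, hu, h⟩ := hne
    exact ⟨u, hu, by rw [eval_one, norm_one]; exact h⟩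
  obtain ⟨m, hm0, hm⟩ := exists_exp (W_finite hP hE) inter_subset_right
  refine ⟨m, hm0, fun r => ⟨fun h => ?_, fun h => negative hP hE hm h⟩⟩
  obtain ⟨c, key⟩ := positive hP hE hm h
  exact density_zero key

end Pool.Agent.H307R3.ZO
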