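import Mathlib
import Pool.Agent.H307R3.ZO.Fin

/-!
Zero-one law on residue classes: all nonconstant polynomials, and the natural density.
-/

set_option autoImplicit false
open Filter Topology Polynomial Metric Set

namespace Pool.Agent.H307R3.ZO

theorem circle_infinite : {u : ℂ | ‖u‖ = 1}.Infinite := by
  have h : (sphere (0 : ℂ) 1).Infinite := by
    refine (isPreconnected_sphere (by rw [Complex.rank_real_complex]; norm_num)
      (0 : ℂ) 1).infinite_of_nontrivial ⟨1, by simp, -1, by simp, ?_⟩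
    intro h
    have := congrArg Complex.re h
    norm_num at this
  refine h.mono fun u hu => by simpa using hu

theorem monomial_case {P : ℂ[X]} (hP : 0 < P.natDegree) (h : ∀ u : ℂ, ‖u‖ = 1 → ‖P.eval u‖ = 1) :
    ∃ c : ℂ, ∃ i : ℕ, 0 < i ∧ c ≠ 0 ∧ P = C c * X ^ i := by
  set D := P.natDegree with hD
  set R : ℂ[X] := ∑ k ∈ Finset.range (D + 1), Polynomial.C ((starRingEnd ℂ) (P.coeff k)) *
    Polynomial.X ^ (D - k) with hR
  have h1 : P * R = X ^ D := by
    apply Polynomial.eq_of_infinite_eval_eq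
    refine circle_infinite.mono ?_
    intro u hu
    have h2 := conj_eval (P := P) le_rfl (u := u) hu
    show (P * R).eval u = (X ^ D : ℂ[X]).eval u
    rw [eval_mul, hR, hD, h2, eval_pow, eval_X]
    have h3 : P.eval u * (starRingEnd ℂ) (P.eval u) = 1 := by
      rw [Complex.mul_conj, Complex.normSq_eq_norm_sq, h u hu]; simp
    calc _ = u ^ P.natDegree * (P.eval u * (starRingEnd ℂ) (P.eval u)) := by ring
      _ = _ := by rw [h3, mul_one]
  have h4 : P ∣ X ^ D := ⟨R, h1.symm⟩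
  obtain ⟨i, -, hi⟩ := (dvd_prime_pow Polynomial.prime_X D).1 h4
  obtain ⟨v, hv⟩ := hi.symm
  obtain ⟨c, hc, hcv⟩ := Polynomial.isUnit_iff.1 v.isUnit
  have hPc : P = C c * X ^ i := by rw [← hv, ← hcv, mul_comm]
  refine ⟨c, i, ?_, hc.ne_zero, hPc⟩
  rcases Nat.eq_zero_or_pos i with h0 | h0
  · rw [h0, pow_zero, mul_one] at hPc
    have : P.natDegree = 0 := by rw [hPc, natDegree_C]
    omega
  · exact h0

theorem monomial_marked {P : ℂ[X]} {c : ℂ} {i : ℕ} (hi : 0 < i) (hc : c ≠ 0)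
    (hP : P = C c * X ^ i) {v : ℂ} (hv : Marked P v) : v = 0 := by
  have h0 : P.eval 0 = 0 := by
    rw [hP]; simp [hi.ne']
  rcases hv with rfl | ⟨y, hy, rfl⟩
  · exact h0
  · rw [hP] at hy
    simp only [derivative_mul, derivative_C, zero_mul, zero_add, derivative_X_pow, eval_mul,
      eval_C, eval_pow, eval_X] at hy
    have hi' : (i : ℂ) ≠ 0 := by exact_mod_cast hi.ne'
    have h1 : y ^ (i - 1) = 0 := by
      rcases mul_eq_zero.1 hy with h | h
      · exact absurd h hc
      · rcases mul_eq_zero.1 h with h | h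
        · exact absurd h hi'
        · exact h
    have h2 : y = 0 := by
      by_contra hne
      exact pow_ne_zero _ hne h1
    rw [h2]; exact h0

theorem zero_one (P : ℂ[X]) (hP : 0 < P.natDegree) :
    ∃ m : ℕ, 0 < m ∧ ∀ r : ℕ,
      ((¬ ∃ v, Marked P v ∧ Landing P r v) →
        Tendsto (fun N : ℕ => ((({n : ℕ | 2 ≤ n ∧ n % m = r % m ∧
          ¬ Hyperbolic (expand ℂ n P)} ∩ Iio N).ncard : ℕ) : ℝ) / N) atTop (𝓝 0)) ∧
      ((∃ v, Marked P v ∧ Landing P r v) →
        ∃ n₀ : ℕ, ∀ n, n₀ ≤ n → n % m = r % m → ¬ Hyperbolic (expand ℂ n P)) := by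
  by_cases hne : ∃ u : ℂ, ‖u‖ = 1 ∧ ‖P.eval u‖ ≠ 1
  · exact main P hP hne
  · push Not at hne
    obtain ⟨c, i, hi, hc, hPc⟩ := monomial_case hP hne
    refine ⟨1, one_pos, fun r => ⟨fun _ => ?_, ?_⟩⟩
    · have he : {n : ℕ | 2 ≤ n ∧ n % 1 = r % 1 ∧ ¬ Hyperbolic (expand ℂ n P)} = ∅ := by
        rw [Set.eq_empty_iff_forall_notMem]
        rintro n ⟨hn, -, hh⟩
        apply hh
        refine hyp_of_marked hn fun v hv => ?_
        have h0 := monomial_marked hi hc hPc hv
        subst h0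
        have hf0 : F P n 0 = 0 := by
          rw [F_zero P (by omega)]
          rw [hPc]; simp [hi.ne']
        right
        refine att_super (F_diff P n) one_pos (by simpa using hf0) ?_
        rw [F_deriv, zero_pow (by omega : n - 1 ≠ 0), mul_zero, mul_zero]
      rw [he]
      simp
    · rintro ⟨v, hv, hl, -⟩
      have h0 := monomial_marked hi hc hPc hv
      have h1 := norm_U (hl 0)
      rw [h0] at h1
      simp at h1

/-- the density of a residue class -/
theorem class_dens {m : ℕ} (hm : 0 < m) (r : ℕ) (hr : r < m) :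
    Tendsto (fun N : ℕ => ((({n : ℕ | n % m = r} ∩ Iio N).ncard : ℕ) : ℝ) / N) atTop
      (𝓝 (1 / m)) := by
  classical
  have hm' : (0:ℝ) < m := by exact_mod_cast hm
  have hcount : ∀ N : ℕ, ({n : ℕ | n % m = r} ∩ Iio N).ncard =
      N / m + if r % m < N % m then 1 else 0 := by
    intro N
    rw [← Nat.count_modEq_card N hm r, Nat.count_eq_card_filter_range, ← Set.ncard_coe_finset]
    congr 1
    ext n
    simp only [Set.mem_inter_iff, Set.mem_ofPred_eq, Set.mem_Iio, Finset.coe_filter,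
      Finset.mem_range, Nat.ModEq, Nat.mod_eq_of_lt hr]
    tauto
  have hb : ∀ N : ℕ, 0 < N →
      |((({n : ℕ | n % m = r} ∩ Iio N).ncard : ℕ) : ℝ) / N - 1 / m| ≤ 1 / N := by
    intro N hN
    have hN' : (0:ℝ) < N := by exact_mod_cast hN
    rw [hcount N]
    have h1 : ((N / m : ℕ) : ℝ) ≤ N / m := Nat.cast_div_le
    have h2 : (N : ℝ) / m < (N / m : ℕ) + 1 := by
      rw [div_lt_iff₀ hm']
      have h3 : N < (N / m + 1) * m := by
        have := Nat.lt_mul_div_succ N hm
        rw [mul_comm] at this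
        exact this
      exact_mod_cast h3
    have e : (((N / m + if r % m < N % m then 1 else 0 : ℕ) : ℝ)) / N - 1 / m =
        ((((N / m + if r % m < N % m then 1 else 0 : ℕ) : ℝ)) - N / m) / N := by
      field_simp
    rw [e, abs_div, abs_of_pos hN']
    gcongr
    rw [abs_le]
    split_ifs
    · push_cast
      constructor <;> linarith
    · push_cast
      constructor <;> linarith
  rw [tendsto_iff_norm_sub_tendsto_zero]
  refine squeeze_zero' (Eventually.of_forall fun _ => norm_nonneg _) ?_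
    tendsto_one_div_atTop_nhds_zero_nat
  filter_upwards [eventually_gt_atTop 0] with N hN
  rw [Real.norm_eq_abs]
  exact hb N hN

theorem sum_classes (H : Set ℕ) {m : ℕ} (hm : 0 < m) (N : ℕ) :
    (H ∩ Iio N).ncard = ∑ r ∈ Finset.range m, ((H ∩ {n : ℕ | n % m = r}) ∩ Iio N).ncard := by
  classical
  have e : ∀ A : Set ℕ, (A ∩ Iio N).ncard = ((Finset.range N).filter (· ∈ A)).card := by
    intro A
    rw [← Set.ncard_coe_finset]
    congr 1
    ext n
    simp only [Set.mem_inter_iff, Set.mem_Iio, Finset.coe_filter, Finset.mem_range,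
      Set.mem_ofPred_eq]
    tauto
  rw [e H, Finset.card_eq_sum_card_fiberwise (f := fun n => n % m) (t := Finset.range m)
    (fun n _ => Finset.mem_coe.2 (Finset.mem_range.2 (Nat.mod_lt n hm)))]
  refine Finset.sum_congr rfl fun r _ => ?_
  rw [e, Finset.filter_filter]
  congr 1
  ext n
  simp only [Finset.mem_filter, Set.mem_inter_iff, Set.mem_ofPred_eq]

theorem density {H : Set ℕ} {m : ℕ} (hm : 0 < m) (good : ℕ → Prop)
    (h1 : ∀ r, good r → Tendsto (fun N : ℕ => ((({n : ℕ | 2 ≤ n ∧ n % m = r % m ∧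
      n ∉ H} ∩ Iio N).ncard : ℕ) : ℝ) / N) atTop (𝓝 0))
    (h2 : ∀ r, ¬ good r → ∃ n₀ : ℕ, ∀ n, n₀ ≤ n → n % m = r % m → n ∉ H) :
    Tendsto (fun N : ℕ => (((H ∩ Iio N).ncard : ℕ) : ℝ) / N) atTop
      (𝓝 ((({r : ℕ | r < m ∧ good r}.ncard : ℕ) : ℝ) / m)) := by
  classical
  have hcls : ∀ r ∈ Finset.range m,
      Tendsto (fun N : ℕ => ((((H ∩ {n : ℕ | n % m = r}) ∩ Iio N).ncard : ℕ) : ℝ) / N) atTop
        (𝓝 (if good r then 1 / m else 0)) := by
    intro r hr
    rw [Finset.mem_range] at hr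
    have hrm : r % m = r := Nat.mod_eq_of_lt hr
    split_ifs with hg
    · have hc := class_dens hm r hr
      have hb := h1 r hg
      have h3 : Tendsto (fun N : ℕ => (2:ℝ) / N) atTop (𝓝 0) :=
        tendsto_const_div_atTop_nhds_zero_nat 2
      have hlow : Tendsto (fun N : ℕ => ((({n : ℕ | n % m = r} ∩ Iio N).ncard : ℕ) : ℝ) / N -
          ((({n : ℕ | 2 ≤ n ∧ n % m = r % m ∧ n ∉ H} ∩ Iio N).ncard : ℕ) : ℝ) / N - 2 / N)
          atTop (𝓝 (1 / m)) := by
        have := (hc.sub hb).sub h3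
        simpa using this
      refine tendsto_of_tendsto_of_tendsto_of_le_of_le hlow hc ?_ ?_
      · intro N
        beta_reduce
        rw [← sub_div, ← sub_div]
        apply div_le_div_of_nonneg_right _ (Nat.cast_nonneg N)
        have hsub : {n : ℕ | n % m = r} ∩ Iio N ⊆ ((H ∩ {n : ℕ | n % m = r}) ∩ Iio N) ∪
            (({n : ℕ | 2 ≤ n ∧ n % m = r % m ∧ n ∉ H} ∩ Iio N) ∪ ({0, 1} : Set ℕ)) := by
          rintro n ⟨hn1, hn2⟩
          by_cases hH : n ∈ H
          · exact Or.inl ⟨⟨hH, hn1⟩, hn2⟩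
          · right
            rcases Nat.lt_or_ge n 2 with h | h
            · right
              have : n = 0 ∨ n = 1 := by omega
              simpa using this
            · left
              exact ⟨⟨h, by rw [hrm]; exact hn1, hH⟩, hn2⟩
        have hfin : ∀ A : Set ℕ, (A ∩ Iio N).Finite := fun A =>
          (Set.finite_Iio N).subset inter_subset_right
        have h4 := Set.ncard_le_ncard hsub
          ((hfin _).union ((hfin _).union (Set.toFinite _)))
        have h5 := Set.ncard_union_le ((H ∩ {n : ℕ | n % m = r}) ∩ Iio N)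
            (({n : ℕ | 2 ≤ n ∧ n % m = r % m ∧ n ∉ H} ∩ Iio N) ∪ ({0, 1} : Set ℕ))
        have h6 := Set.ncard_union_le ({n : ℕ | 2 ≤ n ∧ n % m = r % m ∧ n ∉ H} ∩ Iio N)
          ({0, 1} : Set ℕ)
        have h7 : ({0, 1} : Set ℕ).ncard ≤ 2 := by
          have := Set.ncard_insert_le (0 : ℕ) ({1} : Set ℕ)
          rw [Set.ncard_singleton] at this
          exact this
        have h8 : ({n : ℕ | n % m = r} ∩ Iio N).ncard ≤
            ((H ∩ {n : ℕ | n % m = r}) ∩ Iio N).ncard +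
            ({n : ℕ | 2 ≤ n ∧ n % m = r % m ∧ n ∉ H} ∩ Iio N).ncard + 2 := by omega
        have h9 : ((({n : ℕ | n % m = r} ∩ Iio N).ncard : ℕ) : ℝ) ≤
            (((H ∩ {n : ℕ | n % m = r}) ∩ Iio N).ncard : ℕ) +
            (({n : ℕ | 2 ≤ n ∧ n % m = r % m ∧ n ∉ H} ∩ Iio N).ncard : ℕ) + 2 := by
          exact_mod_cast h8
        linarith
      · intro N
        beta_reduce
        apply div_le_div_of_nonneg_right _ (Nat.cast_nonneg N)
        exact Nat.cast_le.2 (Set.ncard_le_ncard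
          (show (H ∩ {n : ℕ | n % m = r}) ∩ Iio N ⊆ {n : ℕ | n % m = r} ∩ Iio N from
            fun n hn => ⟨hn.1.2, hn.2⟩) ((Set.finite_Iio N).subset inter_subset_right))
    · obtain ⟨n₀, hn₀⟩ := h2 r hg
      have h3 : Tendsto (fun N : ℕ => (n₀ : ℝ) / N) atTop (𝓝 0) :=
        tendsto_const_div_atTop_nhds_zero_nat _
      refine squeeze_zero (fun N => by positivity) (fun N => ?_) h3
      apply div_le_div_of_nonneg_right _ (Nat.cast_nonneg N)
      have h4 : (H ∩ {n : ℕ | n % m = r}) ∩ Iio N ⊆ Iio n₀ := by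
        rintro n ⟨⟨hn1, hn2⟩, -⟩
        rw [Set.mem_Iio]
        by_contra hcon
        exact hn₀ n (not_lt.1 hcon) (by rw [hrm]; exact hn2) hn1
      have h5 := Set.ncard_le_ncard h4 (Set.finite_Iio n₀)
      have h6 : (Iio n₀ : Set ℕ).ncard = n₀ := by
        rw [← Finset.coe_range, Set.ncard_coe_finset, Finset.card_range]
      rw [h6] at h5
      exact_mod_cast h5
  have hsum := tendsto_finsetSum (Finset.range m) hcls
  have e1 : ∑ r ∈ Finset.range m, (if good r then (1:ℝ) / m else 0) =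
      (({r : ℕ | r < m ∧ good r}.ncard : ℕ) : ℝ) / m := by
    rw [← Finset.sum_filter, Finset.sum_const, nsmul_eq_mul]
    have : {r : ℕ | r < m ∧ good r}.ncard = ((Finset.range m).filter good).card := by
      rw [← Set.ncard_coe_finset]
      congr 1
      ext r
      simp
    rw [this]; ring
  rw [e1] at hsum
  refine hsum.congr fun N => ?_
  rw [sum_classes H hm N]
  push_cast
  rw [Finset.sum_div]

theorem final (P : ℂ[X]) (hP : 0 < P.natDegree) :
    ∃ m : ℕ, 0 < m ∧
      (∀ r : ℕ, (¬ ∃ v, Marked P v ∧ Landing P r v) →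
        Tendsto (fun N : ℕ => ((({n : ℕ | 2 ≤ n ∧ n % m = r % m ∧
          ¬ Hyperbolic (expand ℂ n P)} ∩ Iio N).ncard : ℕ) : ℝ) / N) atTop (𝓝 0)) ∧
      (∀ r : ℕ, (∃ v, Marked P v ∧ Landing P r v) →
        ∃ n₀ : ℕ, ∀ n, n₀ ≤ n → n % m = r % m → ¬ Hyperbolic (expand ℂ n P)) ∧
      Tendsto (fun N : ℕ => ((({n : ℕ | Hyperbolic (expand ℂ n P)} ∩ Iio N).ncard : ℕ) : ℝ) / N)
        atTop (𝓝 ((({r : ℕ | r < m ∧ ¬ ∃ v, Marked P v ∧ Landing P r v}.ncard : ℕ) : ℝ) / m)) := by
  obtain ⟨m, hm, h⟩ := zero_one P hP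
  refine ⟨m, hm, fun r => (h r).1, fun r => (h r).2, ?_⟩
  exact density (H := {n : ℕ | Hyperbolic (expand ℂ n P)}) hm
    (fun r => ¬ ∃ v, Marked P v ∧ Landing P r v) (fun r hr => (h r).1 hr)
    (fun r hr => (h r).2 (not_not.1 hr))

end Pool.Agent.H307R3.ZO
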